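import Pool.Agent.Helper60.EV2.Exist

/-!
# AT, leaf U1: the value on ascending diagrams
-/

set_option autoImplicit false

namespace Pool.Agent.Helper85.AT.U

open Polynomial Pool.Agent.Helper85.Exp Pool.Agent.Helper60.EV2

variable {P : Type} {G : Sh P}

/-- the times of the passages -/
structure Tm (D : Dg G) (b : P) (n : ℕ) (T : P → ℕ) : Prop where
  tt : ∀ i, D.tr^[T i] b = i
  lt : ∀ i, T i < n
  it : ∀ l < n, T (D.tr^[l] b) = l
  per : D.tr^[n] b = b

theorem exists_tm [Fintype P] (D : Dg G) (b : P) (h1 : ∀ i, ∃ k : ℕ, D.tr^[k] b = i) : ∃ n T, Tm D b n T := by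
  classical
  have hex : ∃ n, 0 < n ∧ D.tr^[n] b = b := by
    obtain ⟨n, hn, _, h⟩ := tr_period D b
    exact ⟨n, hn, h⟩
  obtain ⟨hn, hper⟩ := Nat.find_spec hex
  have hmin : ∀ l, 0 < l → l < Nat.find hex → D.tr^[l] b ≠ b := fun l hl hlt h => Nat.find_min hex hlt ⟨hl, h⟩
  have hlt : ∀ i, Nat.find (h1 i) < Nat.find hex := by
    intro i
    have h2 := closed_orbit D b hper (Nat.find (h1 i))
    rw [Nat.find_spec (h1 i)] at h2
    exact (Nat.find_min' (h1 i) h2.symm).trans_lt (Nat.mod_lt _ hn)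
  refine ⟨Nat.find hex, fun i => Nat.find (h1 i), fun i => Nat.find_spec (h1 i), hlt, ?_, hper⟩
  intro l hl
  have h2 : Nat.find (h1 (D.tr^[l] b)) ≤ l := Nat.find_min' _ rfl
  have h3 := Nat.find_spec (h1 (D.tr^[l] b))
  rcases h2.lt_or_eq with h4 | h4
  · exact absurd h3 (iterate_ne D b hmin h4 hl)
  · exact h4

theorem Tm.inj {D : Dg G} {b : P} {n : ℕ} {T : P → ℕ} (h : Tm D b n T) {i j : P} (hij : T i = T j) : i = j := by
  rw [← h.tt i, ← h.tt j, hij]

theorem Tm.tr_lt {D : Dg G} {b : P} {n : ℕ} {T : P → ℕ} (h : Tm D b n T) {i : P} (hi : T i + 1 < n) : T (D.tr i) = T i + 1 := by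
  have h1 : D.tr i = D.tr^[T i + 1] b := by rw [Function.iterate_succ_apply', h.tt]
  rw [h1, h.it _ hi]

theorem Tm.tr_eq {D : Dg G} {b : P} {n : ℕ} {T : P → ℕ} (h : Tm D b n T) {i : P} (hi : T i + 1 = n) : T (D.tr i) = 0 := by
  have h1 : D.tr i = D.tr^[T i + 1] b := by rw [Function.iterate_succ_apply', h.tt]
  rw [h1, hi, h.per]
  have := h.it 0 (by omega)
  rwa [Function.iterate_zero_apply] at this

theorem Tm.congr {D D' : Dg G} {b : P} {n : ℕ} {T : P → ℕ} (h : Tm D b n T) (e : D'.tr = D.tr) : Tm D' b n T := by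
  refine ⟨?_, h.lt, ?_, ?_⟩
  · rw [e]; exact h.tt
  · rw [e]; exact h.it
  · rw [e]; exact h.per

theorem ovr_op {D : Dg G} {i : P} (hi : G.op i ≠ i) (hs : D.st i ≠ .smooth) : D.ovr (G.op i) = !D.ovr i := by
  unfold Dg.ovr
  rw [D.st_op i, G.lf_op i hi]
  cases h : D.st i with
  | pos => rfl
  | neg => rfl
  | smooth => exact absurd h hs

theorem ovr_st {D D' : Dg G} {i : P} (h : D'.st i = D.st i) : D'.ovr i = D.ovr i := by
  unfold Dg.ovr
  rw [h]

/-- the diagram is descending at the crossings which are first met before the time `k`, ascending at the others -/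
def Mx (D : Dg G) (T : P → ℕ) (k : ℕ) : Prop :=
  ∀ i, G.op i ≠ i → D.st i ≠ .smooth → T i < T (G.op i) → D.ovr i = decide (T i < k)

theorem mx_top {D : Dg G} {b : P} {n : ℕ} {T : P → ℕ} (h : Tm D b n T) (hm : Mx D T n) : Des D b := by
  intro k hs hl
  have hk : k < n := by
    by_contra hk
    exact hl (T (G.op (D.tr^[k] b))) ((h.lt _).le.trans (not_lt.1 hk)) (h.tt _)
  have h1 := h.it k hk
  have h2 : k < T (G.op (D.tr^[k] b)) := by
    by_contra h3
    exact hl _ (not_lt.1 h3) (h.tt _)
  have h3 : G.op (D.tr^[k] b) ≠ D.tr^[k] b := fun h4 => hl k le_rfl h4.symm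
  rw [hm _ h3 hs (by rw [h1]; exact h2), h1]
  simpa using hk

/-- **One step.** -/
theorem split_zero [Fintype P] {nab : Dg G → ℤ[X]} (hC : Cs nab) {D : Dg G} {b : P} {n : ℕ} {T : P → ℕ} (h : Tm D b n T) {p : P}
    (hs : D.st p ≠ .smooth) (hT : T p < T (G.op p)) (hm : Mx D T (T p)) : nab (D.upd p .smooth) = 0 := by
  classical
  have hnm : D.st (G.op p) ≠ .smooth := by rw [D.st_op]; exact hs
  have hlt := h.lt (G.op p)
  have mem : ∀ i, i ∈ (Finset.univ.filter fun i => T i ≤ T p ∨ T (G.op p) < T i) ↔ (T i ≤ T p ∨ T (G.op p) < T i) := fun i => by simp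
  refine hC.split (D.upd p .smooth) (Finset.univ.filter fun i => T i ≤ T p ∨ T (G.op p) < T i) ⟨p, (mem p).2 (Or.inl le_rfl)⟩ ?_ ?_ ?_
  · intro h1
    have h2 := (mem (G.op p)).1 (by rw [h1]; exact Finset.mem_univ _)
    omega
  · intro i
    rw [mem, mem]
    by_cases e1 : i = p
    · have h2 : (D.upd p .smooth).tr i = D.tr (G.op p) := by
        unfold Dg.tr
        rw [if_pos (upd_st D p _ i (Or.inl e1)), if_neg hnm, e1]
      rw [h2, e1]
      refine iff_of_true ?_ (Or.inl le_rfl)
      rcases Nat.lt_or_ge (T (G.op p) + 1) n with h3 | h3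
      · rw [h.tr_lt h3]
        omega
      · rw [h.tr_eq (by omega)]
        omega
    · by_cases e2 : i = G.op p
      · have h2 : (D.upd p .smooth).tr i = D.tr p := by
          unfold Dg.tr
          rw [if_pos (upd_st D p _ i (Or.inr e2)), if_neg hs, e2, G.op_op]
        rw [h2, e2, h.tr_lt (by omega)]
        refine iff_of_false ?_ ?_ <;> omega
      · have h2 : (D.upd p .smooth).tr i = D.tr i := tr_congr D _ i (by rw [upd_st_ne D p _ i e1 e2])
        have h3 : T i ≠ T p := fun h4 => e1 (h.inj h4)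
        have h4 : T i ≠ T (G.op p) := fun h5 => e2 (h.inj h5)
        have h5 := h.lt i
        rw [h2]
        rcases Nat.lt_or_ge (T i + 1) n with h6 | h6
        · rw [h.tr_lt h6]
          omega
        · rw [h.tr_eq (by omega)]
          omega
  · intro i hi hoi hsi
    rw [mem] at hi hoi
    have e1 : i ≠ p := fun h1 => hsi (upd_st D p _ i (Or.inl h1))
    have e2 : i ≠ G.op p := fun h1 => hsi (upd_st D p _ i (Or.inr h1))
    have e3 : (D.upd p .smooth).st i = D.st i := upd_st_ne D p _ i e1 e2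
    rw [e3] at hsi
    rw [ovr_st e3]
    have h3 : T i ≠ T p := fun h4 => e1 (h.inj h4)
    have hio : G.op i ≠ i := by
      intro h4
      rw [h4] at hoi
      exact hoi hi
    rcases hi with hi | hi
    · have h5 := hm i hio hsi (by omega)
      rw [h5]
      have : T i < T p := by omega
      simpa using this
    · have h5 := hm (G.op i) (by rw [G.op_op]; exact fun h4 => hio h4.symm) (by rw [D.st_op]; exact hsi) (by rw [G.op_op]; omega)
      rw [ovr_op hio hsi] at h5
      have h6 : ¬ T (G.op i) < T p := by omega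
      rw [decide_eq_false h6] at h5
      simpa using h5

/-- the changed status -/
def fs : St → St
  | .pos => .neg
  | .neg => .pos
  | .smooth => .smooth

theorem fs_ne {s : St} (h : s ≠ .smooth) : fs s ≠ .smooth := by
  cases s <;> simp_all [fs]

theorem change [Fintype P] {nab : Dg G → ℤ[X]} (hC : Cs nab) {D : Dg G} {p : P} (hp : G.op p ≠ p) (hs : D.st p ≠ .smooth) (h0 : nab (D.upd p .smooth) = 0) :
    nab D = nab (D.upd p (fs (D.st p))) := by
  have h1 := hC.skein D p hp
  rw [h0, mul_zero] at h1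
  have h2 := upd_self D p
  cases h : D.st p with
  | pos =>
    rw [h] at h2
    rw [← h2]
    simp only [fs]
    rw [h2]
    rw [h2] at h1
    exact sub_eq_zero.1 h1
  | neg =>
    rw [h] at h2
    simp only [fs]
    rw [h2] at h1
    exact (sub_eq_zero.1 h1).symm
  | smooth => exact absurd h hs

theorem main [Fintype P] {nab : Dg G → ℤ[X]} (hC : Cs nab) {b : P} {n : ℕ} {T : P → ℕ} (hall : ∀ D : Dg G, Tm D b n T → ∀ i, ∃ k : ℕ, D.tr^[k] b = i) :
    ∀ j k, k + j = n → ∀ D : Dg G, Tm D b n T → Mx D T k → nab D = 1 := by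
  intro j
  induction j with
  | zero =>
    intro k hk D h hm
    have : k = n := by omega
    rw [this] at hm
    exact hC.knot D b (hall D h) (mx_top h hm)
  | succ j ih =>
    intro k hk D h hm
    have hkn : k < n := by omega
    obtain ⟨p, hp⟩ : ∃ p, p = D.tr^[k] b := ⟨_, rfl⟩
    have hTp : T p = k := by rw [hp]; exact h.it k hkn
    by_cases hc : G.op p ≠ p ∧ D.st p ≠ .smooth ∧ T p < T (G.op p)
    · obtain ⟨h1, h2, h3⟩ := hc
      rw [← hTp] at hm
      rw [change hC h1 h2 (split_zero hC h h2 h3 hm)]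
      have e : (D.upd p (fs (D.st p))).tr = D.tr := by
        funext i
        refine tr_congr D _ i ?_
        by_cases hi : i = p ∨ i = G.op p
        · rw [upd_st D p _ i hi]
          have : D.st i = D.st p := by
            rcases hi with hi | hi
            · rw [hi]
            · rw [hi, D.st_op]
          rw [this]
          exact iff_of_false (fs_ne h2) h2
        · rw [not_or] at hi
          rw [upd_st_ne D p _ i hi.1 hi.2]
      refine ih (k + 1) (by omega) _ (h.congr e) ?_
      intro i hi1 hi2 hi3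
      by_cases hi : i = p
      · rw [hi]
        have h5 : (D.upd p (fs (D.st p))).ovr p = !D.ovr p := by
          unfold Dg.ovr
          rw [upd_st D p _ p (Or.inl rfl)]
          cases h6 : D.st p with
          | pos => simp [fs]
          | neg => simp [fs]
          | smooth => exact absurd h6 h2
        rw [h5, hm p h1 h2 h3, hTp]
        simp
      · have hi' : i ≠ G.op p := by
          intro h6
          rw [h6, G.op_op] at hi3
          omega
        have e3 : (D.upd p (fs (D.st p))).st i = D.st i := upd_st_ne D p _ i hi hi'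
        rw [e3] at hi2
        rw [ovr_st e3, hm i hi1 hi2 hi3, hTp]
        have h7 : T i ≠ k := fun h8 => hi (h.inj (h8.trans hTp.symm))
        congr 1
        apply propext
        omega
    · refine ih (k + 1) (by omega) D h ?_
      intro i hi1 hi2 hi3
      rw [hm i hi1 hi2 hi3]
      have h7 : T i ≠ k := by
        intro h8
        have h9 : i = p := h.inj (h8.trans hTp.symm)
        rw [h9] at hi1 hi2 hi3
        exact hc ⟨hi1, hi2, hi3⟩
      congr 1
      apply propext
      omega

theorem asc_one [Fintype P] {nab : Dg G → ℤ[X]} (h : Cs nab) (D : Dg G) (b : P) (h1 : ∀ i, ∃ k : ℕ, D.tr^[k] b = i)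
    (h2 : ∀ k : ℕ, D.st (D.tr^[k] b) ≠ .smooth → (∀ l ≤ k, D.tr^[l] b ≠ G.op (D.tr^[k] b)) → D.ovr (D.tr^[k] b) = false) : nab D = 1 := by
  obtain ⟨n, T, hT⟩ := exists_tm D b h1
  refine main h (b := b) (n := n) (T := T) (fun D' h' i => ⟨T i, h'.tt i⟩) n 0 (by omega) D hT ?_
  intro i hi1 hi2 hi3
  have h3 := h2 (T i) (by rw [hT.tt]; exact hi2) (fun l hl => by
    rw [hT.tt]
    intro h4
    have h5 : l < n := hl.trans_lt (hT.lt i)
    have h6 := hT.it l h5
    rw [h4] at h6
    omega)
  rw [hT.tt] at h3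
  rw [h3]
  simp

end Pool.Agent.Helper85.AT.U
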