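import Pool.Agent.Helper61.TW.Defs
import Pool.Agent.Helper60.EV2.Exist
import Pool.Agent.Helper85.AT.Asc

/-!
# AT, leaf U: the diagram seen from below

[U1] PROOF of `asc_one`. Call `D` mixed at `n` if every crossing (not smoothed, two passages) whose first passage in the travel from `b` is at a time `< n` is passed over there, and every
other one is passed under at its first passage. Ascending = mixed at `0`; mixed at a large `n` = `Des D b`, so `nab D = 1` by `Cs.knot`. Mixed at `n` gives the same value as mixed at `n + 1`: if the
passage `p` at time `n` is the first passage of its crossing (not smoothed) let `D'` be `D` with this crossing changed (`upd`): `nab D - nab D' = ± X * nab (D.upd p .smooth)`, and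
`nab (D.upd p .smooth) = 0` by `Cs.split`: let `K1` be the passages at the times in `(n, n']`, `n'` the time of `op p` (they form a circuit of the smoothed diagram), `C` the other passages: at every crossing between
`C` and `K1` the first passage is either at a time `< n` (in `C`, over) or in `K1` (under), so `C` lies above `K1`.

[U2] `cs_fl`: `ovr` is exchanged with its negation, so `Des` for `flD D` is the hypothesis of `asc_one`; `split` for `C` is `split` for the complement of `C`.
-/

set_option autoImplicit false

namespace Pool.Agent.Helper85.AT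

open Polynomial Pool.Agent.Helper85.Exp Pool.Agent.Helper60.EV2

variable {P : Type} {G : Sh P}

/-- the component of `b` is ascending from `b` -/
def AscD (D : Dg G) (b : P) : Prop :=
  ∀ k : ℕ, D.st (D.tr^[k] b) ≠ .smooth → (∀ l ≤ k, D.tr^[l] b ≠ G.op (D.tr^[k] b)) → D.ovr (D.tr^[k] b) = false

/-- **[U1]** -/
theorem asc_one [Fintype P] {nab : Dg G → ℤ[X]} (h : Cs nab) (D : Dg G) (b : P) (h1 : ∀ i, ∃ k : ℕ, D.tr^[k] b = i) (h2 : AscD D b) : nab D = 1 :=
  U.asc_one h D b h1 h2

/-- the shadow seen from below -/
def fl (G : Sh P) : Sh P where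
  nxt := G.nxt
  op := G.op
  op_op := G.op_op
  lf i := !G.lf i
  lf_op i hi := by rw [G.lf_op i hi]

/-- the same signs -/
def flD (D : Dg (fl G)) : Dg G := ⟨D.st, D.st_op⟩

theorem flD_ovr (D : Dg (fl G)) {i : P} (h : D.st i ≠ .smooth) : (flD D).ovr i = !D.ovr i := by
  unfold Dg.ovr
  change (match D.st i with
    | .pos => !G.lf i
    | .neg => G.lf i
    | .smooth => false) = !(match D.st i with
    | .pos => !(!G.lf i)
    | .neg => !G.lf i
    | .smooth => false)
  cases h1 : D.st i with
  | pos => simp
  | neg => simp
  | smooth => exact absurd h1 h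

/-- **[U2]** -/
theorem cs_fl [Fintype P] {nab : Dg G → ℤ[X]} (h : Cs nab) : Cs (fun D : Dg (fl G) => nab (flD D)) where
  skein D i hi := h.skein (flD D) i hi
  knot D b h1 h2 := asc_one h (flD D) b h1 (fun k hk hl => by
    have h3 : (flD D).ovr (D.tr^[k] b) = !D.ovr (D.tr^[k] b) := flD_ovr D hk
    have h4 := h2 k hk hl
    rw [h4] at h3
    exact h3)
  split D C h1 h2 h3 h4 := by
    classical
    have h5 : Cᶜ.Nonempty := by
      rw [Finset.nonempty_iff_ne_empty]
      intro h6
      exact h2 ((Finset.compl_eq_empty_iff C).1 h6)
    have h6 : Cᶜ ≠ Finset.univ := by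
      intro h7
      obtain ⟨x, hx⟩ := h1
      have h8 : x ∈ Cᶜ := by rw [h7]; exact Finset.mem_univ x
      exact (Finset.mem_compl.1 h8) hx
    refine h.split (flD D) Cᶜ h5 h6 (fun i => ?_) (fun i hi hoi hs => ?_)
    · rw [Finset.mem_compl, Finset.mem_compl]
      exact not_congr (h3 i)
    · rw [Finset.mem_compl] at hi hoi
      have h7 : G.op i ∈ C := by
        by_contra h8
        exact hoi h8
      have h9 : G.op i ≠ i := by
        intro h10
        rw [h10] at h7
        exact hi h7
      have h11 : D.st (G.op i) ≠ .smooth := by
        have h12 : D.st (G.op i) = D.st i := D.st_op i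
        rw [h12]
        exact hs
      have h13 : D.ovr (G.op i) = true := h4 (G.op i) h7 (by
        have h14 : (fl G).op (G.op i) = i := G.op_op i
        rw [h14]
        exact hi) h11
      have h15 : (flD D).ovr (G.op i) = !D.ovr (G.op i) := flD_ovr D h11
      rw [h13] at h15
      have h16 : (flD D).ovr (G.op i) = !(flD D).ovr i := U.ovr_op h9 hs
      rw [h15] at h16
      revert h16
      cases (flD D).ovr i <;> simp

end Pool.Agent.Helper85.AT
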