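import Pool.Agent.Helper85.AT.Gen

/-!
# AT: the weights of the crossings, termwise comparison of the two counts
-/

set_option autoImplicit false

namespace Pool.Agent.Helper85.AT

open Polynomial Pool.Agent.Helper85.Exp Pool.Agent.Helper61.TW Pool.Agent.Helper60.EV2 Pool.Agent.Helper43.Pln Classical

variable {P : Type} {G : Sh P} {A : Finset P} {m : P → ℕ}

/-- the region of a passage -/
noncomputable def reg (hT : Twist G A m) (p : P) : P := (hT.cov p).choose

theorem reg_mem (hT : Twist G A m) (p : P) : reg hT p ∈ A := (hT.cov p).choose_spec.1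

theorem reg_spec (hT : Twist G A m) (p : P) : ∃ r < m (reg hT p), p = G.nxt^[r] (reg hT p) ∨ p = G.op (G.nxt^[r] (reg hT p)) :=
  (hT.cov p).choose_spec.2

theorem reg_eq (hT : Twist G A m) {a : P} (ha : a ∈ A) {r : ℕ} (hr : r < m a) {p : P} (hp : p = G.nxt^[r] a ∨ p = G.op (G.nxt^[r] a)) : reg hT p = a := by
  obtain ⟨r', hr', h'⟩ := reg_spec hT p
  refine (hT.inj _ (reg_mem hT p) a ha r' hr' r hr ?_).1
  rcases h' with h' | h' <;> rcases hp with hp | hp
  · left; rw [← h', hp]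
  · right; rw [← h', hp]
  · right
    have h2 := congrArg G.op h'
    rw [G.op_op] at h2
    rw [← hp]
    exact h2.symm
  · left
    have : G.op (G.nxt^[r'] (reg hT p)) = G.op (G.nxt^[r] a) := by rw [← h', hp]
    exact op_inj G this

/-- the lower weight of a crossing -/
noncomputable def lo (hT : Twist G A m) (p : P) : ℝ := ((m (reg hT p) / 2 : ℕ) : ℝ) / m (reg hT p)

/-- the upper weight of a crossing -/
noncomputable def hi (hT : Twist G A m) (p : P) : ℝ := (((m (reg hT p) + 1) / 2 : ℕ) : ℝ) / m (reg hT p)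

/-- the quotient -/
noncomputable def rat (m : P → ℕ) (a : P) : ℝ := if Odd (m a) then ((m a : ℝ) + 1) / ((m a : ℝ) - 1) else 1

theorem rat_one (hm : ∀ a ∈ A, 2 ≤ m a) {a : P} (ha : a ∈ A) : 1 ≤ rat m a := by
  unfold rat
  split_ifs
  · have h1 : (2 : ℝ) ≤ m a := by exact_mod_cast hm a ha
    rw [one_le_div (by linarith)]
    linarith
  · exact le_rfl

theorem hi_eq (hT : Twist G A m) (hm : ∀ a ∈ A, 2 ≤ m a) (p : P) : hi hT p = lo hT p * rat m (reg hT p) := by
  have h0 := hm _ (reg_mem hT p)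
  unfold hi lo rat
  split_ifs with h
  · obtain ⟨k, hk⟩ := h
    rw [hk]
    have h1 : (2 * k + 1) / 2 = k := by omega
    have h2 : (2 * k + 1 + 1) / 2 = k + 1 := by omega
    rw [h1, h2]
    have h3 : 1 ≤ k := by omega
    have h4 : (1 : ℝ) ≤ k := by exact_mod_cast h3
    push_cast
    have h5 : (2 * (k : ℝ) + 1 - 1) ≠ 0 := by linarith
    have h6 : (2 * (k : ℝ) + 1) ≠ 0 := by linarith
    field_simp
    ring
  · rw [Nat.not_odd_iff_even] at h
    obtain ⟨k, hk⟩ := h
    rw [hk]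
    have h1 : (k + k) / 2 = k := by omega
    have h2 : (k + k + 1) / 2 = k := by omega
    rw [h1, h2, mul_one]

theorem lo_pos (hT : Twist G A m) (hm : ∀ a ∈ A, 2 ≤ m a) (p : P) : 0 < lo hT p := by
  have h0 := hm _ (reg_mem hT p)
  unfold lo
  have h1 : 0 < m (reg hT p) / 2 := by omega
  have h2 : (0 : ℝ) < ((m (reg hT p) / 2 : ℕ) : ℝ) := by exact_mod_cast h1
  have h3 : (0 : ℝ) < m (reg hT p) := by
    have : 0 < m (reg hT p) := by omega
    exact_mod_cast this
  positivity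

theorem one_le_prod_real {s : Finset P} {f : P → ℝ} (h : ∀ a ∈ s, 1 ≤ f a) : 1 ≤ ∏ a ∈ s, f a := by
  induction s using Finset.induction_on with
  | empty => simp
  | insert a s ha ih =>
    rw [Finset.prod_insert ha]
    have h1 := h a (Finset.mem_insert_self a s)
    have h2 := ih fun x hx => h x (Finset.mem_insert_of_mem hx)
    nlinarith

theorem prod_mono_real {s t : Finset P} {f : P → ℝ} (hst : s ⊆ t) (h : ∀ a ∈ t, 1 ≤ f a) : ∏ a ∈ s, f a ≤ ∏ a ∈ t, f a := by
  rw [← Finset.prod_sdiff hst]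
  have h1 : 1 ≤ ∏ a ∈ t \ s, f a := one_le_prod_real fun a ha => h a (Finset.mem_sdiff.1 ha).1
  have h2 : 1 ≤ ∏ a ∈ s, f a := one_le_prod_real fun a ha => h a (hst ha)
  nlinarith

/-- two smoothed crossings in one region: not one circuit -/
def Two (G : Sh P) (A : Finset P) (m : P → ℕ) (b : P) : Prop :=
  ∀ a ∈ A, ∀ r r' : ℕ, r < r' → r' < m a → ∀ S : Finset P, (G.nxt^[r] a ∈ S ∨ G.op (G.nxt^[r] a) ∈ S) →
    (G.nxt^[r'] a ∈ S ∨ G.op (G.nxt^[r'] a) ∈ S) → ¬ Sg G b S

theorem reg_injOn (hT : Twist G A m) (ho : ∀ i, G.op i ≠ i) {b : P} (htwo : Two G A m b) {S : Finset P} (hS : ∀ x ∈ S, G.lf x = true) (hg : Sg G b S) :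
    Set.InjOn (reg hT) S := by
  intro x hx y hy hxy
  by_contra hne
  obtain ⟨r, hr, h1⟩ := reg_spec hT x
  obtain ⟨r', hr', h2⟩ := reg_spec hT y
  rw [← hxy] at hr' h2
  have e1 : G.nxt^[r] (reg hT x) ∈ S ∨ G.op (G.nxt^[r] (reg hT x)) ∈ S := by
    rcases h1 with h1 | h1
    · left; rw [← h1]; exact hx
    · right; rw [← h1]; exact hx
  have e2 : G.nxt^[r'] (reg hT x) ∈ S ∨ G.op (G.nxt^[r'] (reg hT x)) ∈ S := by
    rcases h2 with h2 | h2
    · left; rw [← h2]; exact hy
    · right; rw [← h2]; exact hy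
  rcases lt_trichotomy r r' with h | h | h
  · exact htwo _ (reg_mem hT x) r r' h hr' S e1 e2 hg
  · rw [← h] at h2
    have lx := hS x hx
    have ly := hS y hy
    rcases h1 with h1 | h1 <;> rcases h2 with h2 | h2
    · exact hne (by rw [h1, h2])
    · have : y = G.op x := by rw [h2, ← h1]
      rw [this, G.lf_op x (ho x), lx] at ly
      exact Bool.noConfusion ly
    · have : x = G.op y := by rw [h1, ← h2]
      rw [this, G.lf_op y (ho y), ly] at lx
      exact Bool.noConfusion lx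
    · exact hne (by rw [h1, h2])
  · exact htwo _ (reg_mem hT x) r' r h hr S e2 e1 hg

/-- the product over the regions of odd length -/
noncomputable def KK (A : Finset P) (m : P → ℕ) : ℝ := ∏ a ∈ A.filter (fun a => Odd (m a)), ((m a : ℝ) + 1) / ((m a : ℝ) - 1)

theorem KK_eq (A : Finset P) (m : P → ℕ) : KK A m = ∏ a ∈ A, rat m a := by
  unfold KK rat
  rw [Finset.prod_filter]

theorem term_le (hT : Twist G A m) (hm : ∀ a ∈ A, 2 ≤ m a) (ho : ∀ i, G.op i ≠ i) {b : P} (htwo : Two G A m b) {S : Finset P} (hS : ∀ x ∈ S, G.lf x = true)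
    (hg : Sg G b S) : ∏ x ∈ S, hi hT x ≤ KK A m * ∏ x ∈ S, lo hT x := by
  have e1 : ∏ x ∈ S, hi hT x = (∏ x ∈ S, rat m (reg hT x)) * ∏ x ∈ S, lo hT x := by
    rw [← Finset.prod_mul_distrib]
    exact Finset.prod_congr rfl fun x _ => by rw [hi_eq hT hm, mul_comm]
  rw [e1]
  refine mul_le_mul_of_nonneg_right ?_ (Finset.prod_nonneg fun x _ => (lo_pos hT hm x).le)
  rw [KK_eq, ← Finset.prod_image (f := rat m) (g := reg hT) (reg_injOn hT ho htwo hS hg)]
  refine prod_mono_real ?_ fun a ha => rat_one hm ha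
  intro a ha
  rw [Finset.mem_image] at ha
  obtain ⟨x, _, rfl⟩ := ha
  exact reg_mem hT x

/-- **The theorem from the two counts.** -/
theorem main_of [Fintype P] (hG : Plane G) {nab : Dg G → ℤ[X]} (hT : Twist G A m) (hm : ∀ a ∈ A, 2 ≤ m a) (b : P) (htwo : Two G A m b)
    (hlo : ∀ j, ∑ S ∈ ((Xs G).powersetCard j).filter (fun S => Sg G b S), ∏ x ∈ S, lo hT x ≤ ((nab (allPos G)).coeff j : ℝ))
    (hhi : ∀ j, ((nab (allPos G)).coeff j : ℝ) ≤ ∑ S ∈ ((Xs G).powersetCard j).filter (fun S => Sg G b S), ∏ x ∈ S, hi hT x)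
    (hK : (((nab (allPos G)).natDegree : ℝ) - (nab (allPos G)).natTrailingDegree) * (KK A m - 1) ≤ 4) : LogConcave G nab := by
  refine lc_int (lc_of hG b (lo hT) (lo_pos hT hm) (nab (allPos G)) (K := KK A m) ?_ ?_ hK) _
  · intro j
    rw [gen_coeff]
    exact hlo j
  · intro j
    rw [gen_coeff, Finset.mul_sum]
    refine (hhi j).trans (Finset.sum_le_sum fun S hS => ?_)
    rw [Finset.mem_filter, Finset.mem_powersetCard] at hS
    refine term_le hT hm hG.cross htwo (fun x hx => ?_) hS.2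
    have := hS.1.1 hx
    simpa [Xs] using this

end Pool.Agent.Helper85.AT
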