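import Pool.Agent.Helper59.V8.Main
import Pool.Agent.Helper43.V6.Bridge
import Pool.Agent.Helper61.TW.Count
import Pool.Agent.Helper85.AT.Term

/-!
# AT: the local criterion (the lens of helper59, grouped by antiparallel twist regions)
-/

set_option autoImplicit false

namespace Pool.Agent.Helper85.AT.L

open Complex Finset Polynomial Pool.Agent.Helper85.Exp Pool.Agent.Helper60.EV2 Pool.Agent.Helper2.PD Pool.Agent.Helper16.PD Pool.Agent.Helper43.Pln
  Pool.Agent.Helper59.V8 Pool.Agent.Helper30.VQ Pool.Agent.Helper61.TW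

variable {P : Type} [Fintype P] {G : Sh P}

/-- the relation at the crossings -/
def Col (G : Sh P) (s : ℂ) (c : Face G → ℂ) : Prop :=
  ∀ x : Cr G, c (Rf G x.1) + s ^ 2 * c (Lf G (G.nxt.symm x.1)) = s * (c (Lf G x.1) + c (Rf G (G.op x.1)))

/-- the squared jump at a crossing -/
noncomputable def J (c : Face G → ℂ) (x : P) : ℝ := normSq (c (Rf G x) - c (Lf G (G.nxt.symm x)))

/-- **The lens**, with the sum over the crossings as hypothesis. -/
theorem lens' (hG : Plane G) (nab : Dg G → ℤ[X]) (hn : Cs nab) {s : ℂ} (hs0 : s ≠ 0) (hs1 : normSq s ≠ 1)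
    (hz : aeval (s⁻¹ - s) (nab (allPos G)) = 0) {α B : ℝ} (h0 : 0 ≤ α) (w : P → ℝ) (hw : ∀ e, w (seifert G e) = w e)
    (hb : ∀ c : Face G → ℂ, Col G s c → ∀ e, |∑ k ∈ range (Function.minimalPeriod (seifert G) e),
        fj (c (Lf G ((seifert G ^ k) e))) (c (Rf G ((seifert G ^ k) e))) (c (Lf G ((seifert G ^ (k + 1)) e)))
          (c (Rf G ((seifert G ^ (k + 1)) e)))| +
      α * |∑ k ∈ range (Function.minimalPeriod (seifert G) e),
        fa (c (Lf G ((seifert G ^ k) e))) (c (Rf G ((seifert G ^ k) e))) (c (Lf G ((seifert G ^ (k + 1)) e)))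
          (c (Rf G ((seifert G ^ (k + 1)) e)))| ≤
      w e * ∑ k ∈ range (Function.minimalPeriod (seifert G) e),
        fu (c (Lf G ((seifert G ^ k) e))) (c (Rf G ((seifert G ^ k) e))) (c (Lf G ((seifert G ^ (k + 1)) e)))
          (c (Rf G ((seifert G ^ (k + 1)) e))))
    (hB : ∀ c : Face G → ℂ, Col G s c → ∑ x : Cr G, (w x.1 + w (G.op x.1)) * J c x.1 ≤ B * ∑ x : Cr G, J c x.1) :
    (1 + normSq s) / 2 + α * |s.re| ≤ B * |s.im| := by
  have hne := nonempty_of hG
  obtain ⟨b⟩ := hne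
  obtain ⟨c, ⟨f, hf⟩, hc1, hc2, hc⟩ := exists_col hG nab hn hs0 hz b
  have hb1 := hb c hc
  have hb2 := hB c hc
  have ho := hG.cross
  obtain ⟨u, hu⟩ : ∃ u : ℝ, u = ∑ x : Cr G, normSq (c (Rf G x.1) - c (Lf G (G.nxt.symm x.1))) := ⟨_, rfl⟩
  obtain ⟨a, ha⟩ : ∃ a : ℝ, a = ∑ x : Cr G, ((starRingEnd ℂ) (c (Lf G (G.nxt.symm x.1))) * c (Rf G x.1)).im := ⟨_, rfl⟩
  obtain ⟨j, hj⟩ : ∃ j : ℝ, j = ∑ x : Cr G, ((c (Lf G x.1) + c (Rf G (G.op x.1))) *
    (starRingEnd ℂ) (c (Rf G x.1) - c (Lf G (G.nxt.symm x.1)))).im := ⟨_, rfl⟩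
  obtain ⟨i1, i2⟩ := identities ho c s hc hs1 hu ha hj
  have hu0 : 0 < u := by
    rcases (Finset.sum_nonneg fun (x : Cr G) (_ : x ∈ univ) => normSq_nonneg (c (Rf G x.1) - c (Lf G (G.nxt.symm x.1)))).lt_or_eq with h | h
    · rw [hu]
      exact h
    · exfalso
      have h1 := (Finset.sum_eq_zero_iff_of_nonneg fun x _ => normSq_nonneg _).1 h.symm
      refine hf (zero_of_const ho hG.conn c s hs0 hc (fun x => ?_) (G.nxt.symm b) hc1 hc2 f)
      exact sub_eq_zero.1 (normSq_eq_zero.1 (h1 x (mem_univ x)))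
  have hp := perm_bound_of (seifert G) (fun e => c (Lf G e)) (fun e => c (Rf G e)) h0 w hw hb1
  have e1 : ∑ e, fj (c (Lf G e)) (c (Rf G e)) (c (Lf G (seifert G e))) (c (Rf G (seifert G e))) = j := by
    have h := sum_col ho c (fun _ => 1) fj
    simp only [one_mul] at h
    rw [h, hj]
    refine Finset.sum_congr rfl fun x _ => ?_
    unfold fj
    simp only [sub_self, map_zero, mul_zero, zero_im, add_zero, add_mul, add_im]
    ring
  have e2 : ∑ e, fa (c (Lf G e)) (c (Rf G e)) (c (Lf G (seifert G e))) (c (Rf G (seifert G e))) = 2 * a := by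
    have h := sum_col ho c (fun _ => 1) fa
    simp only [one_mul] at h
    rw [h, ha, Finset.mul_sum]
    refine Finset.sum_congr rfl fun x _ => ?_
    unfold fa
    simp only [mul_im, conj_re, conj_im]
    ring
  have e3 : ∑ e, w e * fu (c (Lf G e)) (c (Rf G e)) (c (Lf G (seifert G e))) (c (Rf G (seifert G e))) ≤ B * u := by
    rw [sum_col ho c w fu, hu]
    refine le_of_eq_of_le (Finset.sum_congr rfl fun x _ => ?_) hb2
    have k1 : w (G.nxt.symm x.1) = w (G.op x.1) := by
      rw [← hw (G.nxt.symm x.1), seifert_apply, Equiv.apply_symm_apply]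
    have k2 : w (G.nxt.symm (G.op x.1)) = w x.1 := by
      rw [← hw (G.nxt.symm (G.op x.1)), seifert_apply, Equiv.apply_symm_apply, G.op_op]
    unfold fu J
    simp only [sub_self, map_zero, add_zero, zero_add]
    rw [k1, k2]
    ring
  rw [e1, e2] at hp
  have h1 : |j| + α * |2 * a| ≤ B * u := hp.trans e3
  have h2 := mul_le_mul_of_nonneg_left h1 (abs_nonneg s.im)
  have h3 : |s.im| * |j| = (1 + normSq s) / 2 * u := by
    rw [← abs_mul, i2, abs_neg, abs_of_nonneg]
    have := normSq_nonneg s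
    positivity
  have h4 : |s.im| * |2 * a| = |s.re| * u := by
    rw [← abs_mul, i1, abs_mul, abs_of_pos hu0]
  have h5 : ((1 + normSq s) / 2 + α * |s.re|) * u ≤ (B * |s.im|) * u := by
    have e : |s.im| * (|j| + α * |2 * a|) = |s.im| * |j| + α * (|s.im| * |2 * a|) := by ring
    rw [e, h3, h4] at h2
    linarith
  exact le_of_mul_le_mul_right h5 hu0

/-! ### The regions -/

variable {A : Finset P} {m : P → ℕ}

omit [Fintype P] in
theorem jump_step (ho : ∀ i, G.op i ≠ i) (hT : Twist G A m) {a : P} (ha : a ∈ A) {r : ℕ} (hr : r + 1 < m a) (c : Face G → ℂ) :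
    J c (xr G a (r + 1)) = J c (xr G a r) := by
  have hbig := hT.big a ha r hr
  have halt := hT.alt a ha r hr
  have hnx : G.nxt (G.nxt^[r] a) = G.nxt^[r + 1] a := (Function.iterate_succ_apply' _ _ _).symm
  have s1 : G.nxt.symm (G.nxt^[r + 1] a) = G.nxt^[r] a := by rw [← hnx, Equiv.symm_apply_apply]
  have s2 : G.nxt.symm (G.op (G.nxt^[r] a)) = G.op (G.nxt^[r + 1] a) := by rw [← hbig, Equiv.symm_apply_apply]
  unfold xr J
  cases hl : G.lf (G.nxt^[r] a) with
  | true =>
    rw [hl] at halt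
    have h1 : G.lf (G.nxt^[r + 1] a) = false := halt
    rw [if_neg (by rw [h1]; decide), if_pos rfl]
    have h2 : G.lf (G.op (G.nxt^[r + 1] a)) = true := by rw [G.lf_op _ (ho _), h1]; rfl
    have c1 := corner_S hl
    have c2 := corner_S h2
    rw [s2] at c1
    rw [G.op_op, s1] at c2
    rw [c1, c2, ← normSq_neg, neg_sub]
  | false =>
    rw [hl] at halt
    have h1 : G.lf (G.nxt^[r + 1] a) = true := halt
    rw [if_pos h1, if_neg (by decide)]
    have h2 : G.lf (G.op (G.nxt^[r] a)) = true := by rw [G.lf_op _ (ho _), hl]; rfl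
    have c1 := corner_N h1
    have c2 := corner_N h2
    rw [G.op_op] at c2
    rw [c1, c2, s1, s2, ← normSq_neg, neg_sub]

omit [Fintype P] in
theorem jump_all (ho : ∀ i, G.op i ≠ i) (hT : Twist G A m) {a : P} (ha : a ∈ A) {r : ℕ} (hr : r < m a) (c : Face G → ℂ) :
    J c (xr G a r) = J c (xr G a 0) := by
  induction r with
  | zero => rfl
  | succ r ih => rw [jump_step ho hT ha hr, ih (by omega)]

theorem sum_regions (ho : ∀ i, G.op i ≠ i) (hT : Twist G A m) (f : P → ℝ) :
    ∑ x : Cr G, f x.1 = ∑ a ∈ A, ∑ r ∈ range (m a), f (xr G a r) := by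
  classical
  have e1 : ∑ x : Cr G, f x.1 = ∑ x ∈ Xs G, f x := by
    symm
    exact Finset.sum_subtype _ (fun x => by simp [Xs]) _
  rw [e1, ← Finset.sum_fiberwise_of_maps_to (fun x _ => reg_mem hT x)]
  refine Finset.sum_congr rfl fun a ha => ?_
  rw [← sum_rg ho hT ha f]
  refine Finset.sum_congr ?_ fun _ _ => rfl
  unfold Rg
  ext x
  rw [mem_filter, mem_filter]
  refine and_congr_right fun _ => ⟨fun h => ?_, fun h => ?_⟩
  · obtain ⟨r, hr, hx⟩ := reg_spec hT x
    rw [h] at hr hx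
    exact ⟨r, hr, hx⟩
  · obtain ⟨r, hr, hx⟩ := h
    exact reg_eq hT ha hr hx

/-- a circle with two crossings on the same side has weight zero -/
theorem wt_two {α : ℝ} {e e' : P} (h1 : seifert G e = e') (h2 : seifert G e' = e) (hne : e ≠ e')
    (hs : Pool.Agent.Helper59.V8.side G e = Pool.Agent.Helper59.V8.side G e') : wt α (seifert G) (Pool.Agent.Helper59.V8.side G) e = 0 := by
  have hp : Function.minimalPeriod (seifert G) e = 2 := by
    have h3 : Function.IsPeriodicPt (seifert G) 2 e := by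
      show (seifert G)^[2] e = e
      rw [Function.iterate_succ_apply, Function.iterate_one, h1, h2]
    have h4 : Function.minimalPeriod (seifert G) e ∣ 2 := h3.minimalPeriod_dvd
    have h5 := (Nat.dvd_prime Nat.prime_two).1 h4
    rcases h5 with h5 | h5
    · exfalso
      rw [Function.minimalPeriod_eq_one_iff_isFixedPt] at h5
      exact hne (h5.symm.trans h1)
    · exact h5
  unfold wt nL nR bet
  rw [hp]
  have p0 : (seifert G ^ 0) e = e := rfl
  have p1 : (seifert G ^ 1) e = e' := by rw [pow_one, h1]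
  have hcot : Real.cot (Real.pi / (2 : ℕ)) = 0 := by
    rw [Real.cot_eq_cos_div_sin]
    push_cast
    rw [Real.cos_pi_div_two, zero_div]
  rw [hcot]
  have hr : range 2 = {0, 1} := rfl
  rw [hr]
  cases h6 : Pool.Agent.Helper59.V8.side G e with
  | true =>
    have h7 := h6
    rw [hs] at h7
    have e2 : (({0, 1} : Finset ℕ).filter fun k => Pool.Agent.Helper59.V8.side G ((seifert G ^ k) e) = false).card = 0 := by
      rw [card_eq_zero, filter_eq_empty_iff]
      intro k hk
      rcases mem_insert.1 hk with hk | hk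
      · rw [hk, p0, h6]; decide
      · rw [mem_singleton.1 hk, p1, h7]; decide
    rw [e2]
    simp
  | false =>
    have h7 := h6
    rw [hs] at h7
    have e2 : (({0, 1} : Finset ℕ).filter fun k => Pool.Agent.Helper59.V8.side G ((seifert G ^ k) e) = true).card = 0 := by
      rw [card_eq_zero, filter_eq_empty_iff]
      intro k hk
      rcases mem_insert.1 hk with hk | hk
      · rw [hk, p0, h6]; decide
      · rw [mem_singleton.1 hk, p1, h7]; decide
    rw [e2]
    simp

/-- the inner circles of a region -/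
theorem wt_inner (ho : ∀ i, G.op i ≠ i) (hT : Twist G A m) {a : P} (ha : a ∈ A) {r : ℕ} (hr : r + 1 < m a) (α : ℝ) :
    wt α (seifert G) (Pool.Agent.Helper59.V8.side G) (G.nxt^[r] a) = 0 ∧
      wt α (seifert G) (Pool.Agent.Helper59.V8.side G) (G.op (G.nxt^[r + 1] a)) = 0 := by
  have hbig := hT.big a ha r hr
  have halt := hT.alt a ha r hr
  have hnx : G.nxt (G.nxt^[r] a) = G.nxt^[r + 1] a := (Function.iterate_succ_apply' _ _ _).symm
  have h1 : seifert G (G.nxt^[r] a) = G.op (G.nxt^[r + 1] a) := by rw [seifert_apply, hnx]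
  have h2 : seifert G (G.op (G.nxt^[r + 1] a)) = G.nxt^[r] a := by rw [seifert_apply, hbig, G.op_op]
  have hne : G.nxt^[r] a ≠ G.op (G.nxt^[r + 1] a) := by
    intro h
    have := (hT.inj a ha a ha r (by omega) (r + 1) hr (Or.inr h)).2
    omega
  have hs : Pool.Agent.Helper59.V8.side G (G.nxt^[r] a) = Pool.Agent.Helper59.V8.side G (G.op (G.nxt^[r + 1] a)) := by
    unfold Pool.Agent.Helper59.V8.side
    rw [hnx, hbig, G.lf_op _ (ho _), halt]
  have k1 := wt_two (α := α) h1 h2 hne hs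
  refine ⟨k1, ?_⟩
  rw [← h1, wt_apply, k1]

/-- the sum of the weights over a region -/
theorem sum_wt (ho : ∀ i, G.op i ≠ i) (hT : Twist G A m) {a : P} (ha : a ∈ A) (α : ℝ) :
    ∑ r ∈ range (m a), (wt α (seifert G) (Pool.Agent.Helper59.V8.side G) (xr G a r) +
      wt α (seifert G) (Pool.Agent.Helper59.V8.side G) (G.op (xr G a r))) =
    wt α (seifert G) (Pool.Agent.Helper59.V8.side G) (G.op a) + wt α (seifert G) (Pool.Agent.Helper59.V8.side G) (G.nxt^[m a - 1] a) := by
  set W := wt α (seifert G) (Pool.Agent.Helper59.V8.side G) with hW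
  have e1 : ∀ r, W (xr G a r) + W (G.op (xr G a r)) = W (G.nxt^[r] a) + W (G.op (G.nxt^[r] a)) := by
    intro r
    unfold xr
    split_ifs
    · rfl
    · rw [G.op_op, add_comm]
  rw [Finset.sum_congr rfl fun r _ => e1 r]
  obtain ⟨n, hn⟩ : ∃ n, m a = n + 1 := ⟨m a - 1, by have := hT.pos a ha; omega⟩
  rw [hn, Finset.sum_add_distrib, Finset.sum_range_succ, Finset.sum_range_succ']
  have z1 : ∑ r ∈ range n, W (G.nxt^[r] a) = 0 := Finset.sum_eq_zero fun r hr => (wt_inner ho hT ha (by rw [mem_range] at hr; omega) α).1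
  have z2 : ∑ r ∈ range n, W (G.op (G.nxt^[r + 1] a)) = 0 := Finset.sum_eq_zero fun r hr => (wt_inner ho hT ha (by rw [mem_range] at hr; omega) α).2
  rw [z1, z2, Nat.add_sub_cancel, Function.iterate_zero_apply]
  ring

/-- **The local criterion.** -/
theorem local_of (hG : Plane G) {nab : Dg G → ℤ[X]} (hn : Cs nab) (hT : Twist G A m) {α : ℝ} (h0 : 0 ≤ α) (h1 : α ≤ 1)
    (h : ∀ a ∈ A, Pool.Agent.Helper43.V6.weight α G (G.op a) + Pool.Agent.Helper43.V6.weight α G (G.nxt^[m a - 1] a) ≤ m a * (√3 + 9 / 10 * α)) :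
    (∀ z : ℂ, aeval z (nab (allPos G)) = 0 → 3 * z.re ^ 2 ≤ z.im ^ 2) ∧ LogConcave G nab := by
  have ho := hG.cross
  have key : ∀ z : ℂ, aeval z (nab (allPos G)) = 0 → 3 * z.re ^ 2 ≤ z.im ^ 2 := by
    intro z hz
    obtain ⟨s, hs0, rfl⟩ := exists_s z
    refine sector_s hs0 fun hs1 => ?_
    have h3 := lens' hG nab hn hs0 hs1 hz (B := √3 + 9 / 10 * α) h0 (wt α (seifert G) (Pool.Agent.Helper59.V8.side G))
      (fun e => wt_apply (α := α) (seifert G) (Pool.Agent.Helper59.V8.side G) e) (fun c hc e => ?_) (fun c hc => ?_)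
    · apply sector_of h0 h1
      rw [normSq_apply] at h3
      have e : s.re * s.re + s.im * s.im = s.re ^ 2 + s.im ^ 2 := by ring
      rw [e] at h3
      exact h3
    · refine cycle_wt h0 h1 (seifert G) (fun e => c (Lf G e)) (fun e => c (Rf G e)) (Pool.Agent.Helper59.V8.side G) (fun e he => ?_) (fun e he => ?_) e
      · show c (Rf G (seifert G e)) = c (Rf G e)
        rw [step_true hG.cross he]
      · show c (Lf G (seifert G e)) = c (Lf G e)
        rw [step_false hG.cross he]
    · rw [sum_regions ho hT (fun x => (wt α (seifert G) (Pool.Agent.Helper59.V8.side G) x + wt α (seifert G) (Pool.Agent.Helper59.V8.side G) (G.op x)) * J c x),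
        sum_regions ho hT (J c), Finset.mul_sum]
      refine Finset.sum_le_sum fun a ha => ?_
      have e1 : ∀ r ∈ range (m a), (wt α (seifert G) (Pool.Agent.Helper59.V8.side G) (xr G a r) +
          wt α (seifert G) (Pool.Agent.Helper59.V8.side G) (G.op (xr G a r))) * J c (xr G a r) =
          (wt α (seifert G) (Pool.Agent.Helper59.V8.side G) (xr G a r) +
          wt α (seifert G) (Pool.Agent.Helper59.V8.side G) (G.op (xr G a r))) * J c (xr G a 0) := by
        intro r hr
        rw [jump_all ho hT ha (mem_range.1 hr)]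
      have e2 : ∀ r ∈ range (m a), J c (xr G a r) = J c (xr G a 0) := fun r hr => jump_all ho hT ha (mem_range.1 hr) c
      rw [Finset.sum_congr rfl e1, Finset.sum_congr rfl e2, ← Finset.sum_mul, sum_wt ho hT ha, Finset.sum_const, card_range, nsmul_eq_mul,
        ← mul_assoc]
      refine mul_le_mul_of_nonneg_right ?_ (normSq_nonneg _)
      have h4 := h a ha
      rw [← Pool.Agent.Helper43.V6.wt_eq ho, ← Pool.Agent.Helper43.V6.wt_eq ho] at h4
      rw [mul_comm (√3 + 9 / 10 * α)]
      exact h4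
  exact ⟨key, lc_of_sector hG nab hn key⟩

end Pool.Agent.Helper85.AT.L
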