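import Pool.Agent.Helper85.AT.Quad
import Pool.Agent.Helper10.AT.Below

/-!
# AT: the end
-/

set_option autoImplicit false

namespace Pool.Agent.Helper85.AT

open Polynomial Pool.Agent.Helper85.Exp Pool.Agent.Helper61.TW Pool.Agent.Helper60.EV2 Pool.Agent.Helper43.Pln Pool.Agent.Helper10.AT Classical

variable {P : Type} {G : Sh P} {A : Finset P} {m : P → ℕ}

theorem two_all' (hT : Twist G A m) (ho : ∀ i, G.op i ≠ i) (b : P) : Two G A m b :=
  fun _ ha _ _ hr hr' _ h h' => Pool.Agent.Helper41.TW.two hT ho ha hr hr' h h' b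

theorem exists_base' (hG : Plane G) (hT : Twist G A m) : ∃ b, b ∈ A := by
  obtain ⟨p⟩ := nonempty_of hG
  obtain ⟨a, ha, _⟩ := hT.cov p
  exact ⟨a, ha⟩

theorem vv_bd (hT : Twist G A m) (b : P) (S : Finset P) (x : P) : |2 * vv hT b S x - 1| ≤ xi m (reg hT x) := by
  have ha := reg_mem hT x
  have hm1 := hT.pos _ ha
  have hb := (alt_bounds (fun r => G.lf (G.nxt^[r] (reg hT x))) (m (reg hT x)) (fun r hr => hT.alt _ ha r hr)).1
  change m (reg hT x) / 2 ≤ nT G m (reg hT x) ∧ nT G m (reg hT x) ≤ (m (reg hT x) + 1) / 2 at hb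
  have key : |2 * (nT G m (reg hT x) : ℝ) - m (reg hT x)| ≤ if Odd (m (reg hT x)) then 1 else 0 := by
    split_ifs with h
    · obtain ⟨k, hk⟩ := h
      rcases (show nT G m (reg hT x) = k ∨ nT G m (reg hT x) = k + 1 by omega) with h1 | h1
      · rw [h1, hk, abs_le]
        push_cast
        constructor <;> linarith
      · rw [h1, hk, abs_le]
        push_cast
        constructor <;> linarith
    · rw [Nat.not_odd_iff_even] at h
      obtain ⟨k, hk⟩ := h
      have h1 : nT G m (reg hT x) = k := by omega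
      rw [h1, hk, abs_le]
      push_cast
      constructor <;> linarith
  have hmr : (0 : ℝ) < m (reg hT x) := by exact_mod_cast (by omega : 0 < m (reg hT x))
  have h2 : |2 * vv hT b S x - 1| = |2 * (nT G m (reg hT x) : ℝ) - m (reg hT x)| / m (reg hT x) := by
    have h3 : |2 * (nT G m (reg hT x) : ℝ) - m (reg hT x)| / m (reg hT x) = |(2 * (nT G m (reg hT x) : ℝ) - m (reg hT x)) / m (reg hT x)| := by
      rw [abs_div, abs_of_pos hmr]
    rw [h3]
    unfold vv
    change |2 * (if _ then (nT G m (reg hT x) : ℝ) / m (reg hT x) else ((m (reg hT x) : ℝ) - nT G m (reg hT x)) / m (reg hT x)) - 1| = _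
    split_ifs
    · congr 1
      field_simp
    · rw [← abs_neg]
      congr 1
      field_simp
      ring
  rw [h2]
  unfold xi
  by_cases h : Odd (m (reg hT x))
  · rw [if_pos h] at key ⊢
    exact div_le_div_of_nonneg_right key hmr.le
  · rw [if_neg h] at key ⊢
    exact div_nonpos_of_nonpos_of_nonneg key hmr.le

variable [Fintype P]

theorem cnt (hG : Plane G) {nab : Dg G → ℤ[X]} (hn : Cs nab) (hT : Twist G A m) {b : P} (hb : b ∈ A) : Cnt hT b (nab (allPos G)) (vv hT b) where
  bd S _ x _ := vv_bd hT b S x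
  c1 j := exact hG.cross hT hb (hn.cw b) (allPos G) (fun _ => rfl) j
  c2 j := below hG.cross hT hb ((cs_fl hn).cw b) (allPos (fl G)) (fun _ => rfl) j

/-- **The inequality.** -/
theorem fin_lc (hG : Plane G) {nab : Dg G → ℤ[X]} (hn : Cs nab) (hT : Twist G A m)
    (hV : (((nab (allPos G)).natDegree : ℝ) - (nab (allPos G)).natTrailingDegree + 2) *
      (∏ a ∈ A.filter (fun a => Odd (m a)), (1 + 1 / (m a : ℝ)) + ∏ a ∈ A.filter (fun a => Odd (m a)), (1 - 1 / (m a : ℝ)) - 2) ≤ 4) :
    LogConcave G nab := by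
  obtain ⟨b, hb⟩ := exists_base' hG hT
  exact lc_int (lc_quad hG (nab (allPos G)) (cnt hG hn hT hb) (two_all' hT hG.cross b) hV) _

/-- **The zeros.** -/
theorem fin_zeros (hG : Plane G) {nab : Dg G → ℤ[X]} (hn : Cs nab) (hT : Twist G A m) (hone : (A.filter (fun a => Odd (m a))).card ≤ 1) {z : ℂ}
    (hz : aeval z (nab (allPos G)) = 0) : z.re = 0 := by
  obtain ⟨b, hb⟩ := exists_base' hG hT
  exact zeros_one hG (nab (allPos G)) (cnt hG hn hT hb) (two_all' hT hG.cross b) hone hz

end Pool.Agent.Helper85.AT
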