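import Mathlib

/-!
# AT: antiparallel twist regions, the level of the regions

`ι`: the regions; `(i, false)`, `(i, true)`: the two entries of the region `i`; `π x`: the entry which is reached from the entry `x` if the region of `x` is passed without a
smoothed crossing; a region with a smoothed crossing exchanges the two ways. `Ony π F`: the travel with one smoothed crossing in each region of `F` passes through everything.
-/

set_option autoImplicit false

namespace Pool.Agent.Helper85.AT

variable {ι : Type*} [DecidableEq ι]

/-- the next entry -/
def step (π : Equiv.Perm (ι × Bool)) (F : Finset ι) (x : ι × Bool) : ι × Bool :=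
  π (if x.1 ∈ F then (x.1, !x.2) else x)

/-- one circuit -/
def Ony (π : Equiv.Perm (ι × Bool)) (F : Finset ι) : Prop :=
  ∀ x y : ι × Bool, ∃ k : ℕ, (step π F)^[k] x = y

/-- the regions are connected -/
def Cn (π : Equiv.Perm (ι × Bool)) : Prop :=
  ∀ C : ι × Bool → Prop, (∃ x, C x) → (∀ x, C (π x) ↔ C x) → (∀ x, C (x.1, !x.2) ↔ C x) → ∀ x, C x

end Pool.Agent.Helper85.AT
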