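import Pool.Agent.Helper61.TW.Defs
import Pool.Agent.Helper85.AT.Defs
import Pool.Agent.Helper43.PD.Plane

/-!
# AT: the crossings as regions; from `trS` to `step`
-/

set_option autoImplicit false

namespace Pool.Agent.Helper85.AT

open Pool.Agent.Helper85.Exp Pool.Agent.Helper61.TW Classical

variable {P : Type} {G : Sh P}

/-- the crossings -/
abbrev Cx (G : Sh P) : Type := {i : P // G.lf i = true}

theorem lf_op_false (ho : ∀ i, G.op i ≠ i) {p : P} (h : ¬ G.lf p = true) : G.lf (G.op p) = true := by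
  rw [G.lf_op p (ho p)]
  simpa using h

/-- the passages -/
noncomputable def enc (ho : ∀ i, G.op i ≠ i) : Cx G × Bool ≃ P where
  toFun x := if x.2 = true then G.op x.1.1 else x.1.1
  invFun p := if h : G.lf p = true then (⟨p, h⟩, false) else (⟨G.op p, lf_op_false ho h⟩, true)
  left_inv := by
    rintro ⟨⟨i, hi⟩, b⟩
    cases b
    · simp [hi]
    · have h1 : G.lf (G.op i) = false := by rw [G.lf_op i (ho i), hi]; rfl
      simp [h1, G.op_op]
  right_inv := by
    intro p
    by_cases h : G.lf p = true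
    · simp [h]
    · simp [h, G.op_op]

/-- the travel without a smoothed crossing -/
noncomputable def pn (ho : ∀ i, G.op i ≠ i) : Equiv.Perm (Cx G × Bool) := ((enc ho).trans G.nxt).trans (enc ho).symm

theorem enc_flip (ho : ∀ i, G.op i ≠ i) (x : Cx G × Bool) : enc ho (x.1, !x.2) = G.op (enc ho x) := by
  obtain ⟨⟨i, hi⟩, b⟩ := x
  cases b
  · simp [enc]
  · simp [enc, G.op_op]

/-- the set of passages -/
noncomputable def im (F : Finset (Cx G)) : Finset P := F.map (Function.Embedding.subtype _)

theorem mem_im (F : Finset (Cx G)) (p : P) : p ∈ im F ↔ ∃ h : G.lf p = true, (⟨p, h⟩ : Cx G) ∈ F := by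
  simp [im]

theorem fst_mem (ho : ∀ i, G.op i ≠ i) (F : Finset (Cx G)) (x : Cx G × Bool) : (enc ho x ∈ im F ∨ G.op (enc ho x) ∈ im F) ↔ x.1 ∈ F := by
  obtain ⟨⟨i, hi⟩, b⟩ := x
  have h1 : G.lf (G.op i) = false := by rw [G.lf_op i (ho i), hi]; rfl
  cases b
  · simp [enc, mem_im, hi, h1]
  · simp [enc, mem_im, hi, h1, G.op_op]

theorem enc_step (ho : ∀ i, G.op i ≠ i) (F : Finset (Cx G)) (x : Cx G × Bool) : enc ho (step (pn ho) F x) = trS G (im F) (enc ho x) := by
  unfold step trS pn
  by_cases h : x.1 ∈ F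
  · rw [if_pos h, if_pos ((fst_mem ho F x).2 h)]
    simp only [Equiv.trans_apply, Equiv.apply_symm_apply]
    rw [enc_flip]
  · rw [if_neg h, if_neg (fun h2 => h ((fst_mem ho F x).1 h2))]
    simp only [Equiv.trans_apply, Equiv.apply_symm_apply]

theorem enc_iter (ho : ∀ i, G.op i ≠ i) (F : Finset (Cx G)) (k : ℕ) (x : Cx G × Bool) : enc ho ((step (pn ho) F)^[k] x) = (trS G (im F))^[k] (enc ho x) := by
  induction k generalizing x with
  | zero => rfl
  | succ k ih => rw [Function.iterate_succ_apply, Function.iterate_succ_apply, ih, enc_step]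

theorem trS_inj (G : Sh P) (S : Finset P) : Function.Injective (trS G S) := by
  have := trS_eq G (Pool.Agent.Helper43.Pln.allPos G) (fun i => rfl) S
  rw [← this]
  exact tr_inj _

/-- from everywhere to everywhere -/
theorem sg_all [Fintype P] {b : P} {S : Finset P} (h : Sg G b S) (x y : P) : ∃ k : ℕ, (trS G S)^[k] x = y := by
  obtain ⟨k, hk⟩ := h x
  obtain ⟨l, hl⟩ := h y
  have e := trS_eq G (Pool.Agent.Helper43.Pln.allPos G) (fun i => rfl) S
  obtain ⟨n, hn, _, hper⟩ := tr_period ((Pool.Agent.Helper43.Pln.allPos G).sm S) b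
  rw [e] at hper
  -- return from x to b
  have h1 : ∃ r, (trS G S)^[r] x = b := by
    have h2 : ∀ q : ℕ, (trS G S)^[n * q] b = b := by
      intro q
      induction q with
      | zero => rfl
      | succ q ih => rw [Nat.mul_succ, Function.iterate_add_apply, hper, ih]
    refine ⟨n * k - k, ?_⟩
    have h3 : k ≤ n * k := Nat.le_mul_of_pos_left k hn
    rw [← hk, ← Function.iterate_add_apply, Nat.sub_add_cancel h3, h2]
  obtain ⟨r, hr⟩ := h1
  exact ⟨l + r, by rw [Function.iterate_add_apply, hr, hl]⟩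

theorem ony_iff [Fintype P] (ho : ∀ i, G.op i ≠ i) (b : P) (F : Finset (Cx G)) : Ony (pn ho) F ↔ Sg G b (im F) := by
  constructor
  · intro h i
    obtain ⟨k, hk⟩ := h ((enc ho).symm b) ((enc ho).symm i)
    refine ⟨k, ?_⟩
    have := enc_iter ho F k ((enc ho).symm b)
    rw [hk, Equiv.apply_symm_apply, Equiv.apply_symm_apply] at this
    exact this.symm
  · intro h x y
    obtain ⟨k, hk⟩ := sg_all h (enc ho x) (enc ho y)
    refine ⟨k, (enc ho).injective ?_⟩
    rw [enc_iter, hk]

theorem cn_pn (ho : ∀ i, G.op i ≠ i) (hc : Pool.Agent.Helper2.PD.Conn G) : Cn (pn ho) := by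
  intro C ⟨x, hx⟩ h1 h2 y
  have key := hc (fun p => C ((enc ho).symm p)) ⟨enc ho x, by simpa using hx⟩ ?_ ?_ (enc ho y)
  · simpa using key
  · intro v
    have := h1 ((enc ho).symm v)
    simpa [pn] using this
  · intro v
    have h3 := h2 ((enc ho).symm v)
    have h4 : (enc ho).symm (G.op v) = (((enc ho).symm v).1, !((enc ho).symm v).2) := by
      apply (enc ho).injective
      rw [enc_flip]
      simp
    rw [h4]
    exact h3

/-- sums over the sets of crossings -/
theorem sum_im [Fintype P] {M : Type*} [AddCommMonoid M] (ho : ∀ i, G.op i ≠ i) (b : P) (f : Finset P → M) :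
    ∑ F ∈ Finset.univ.filter (fun F : Finset (Cx G) => Ony (pn ho) F), f (im F) = ∑ S ∈ (Xs G).powerset.filter (fun S => Sg G b S), f S := by
  refine Finset.sum_bij (fun F _ => im F) ?_ ?_ ?_ ?_
  · intro F hF
    rw [Finset.mem_filter] at hF ⊢
    refine ⟨?_, (ony_iff ho b F).1 hF.2⟩
    rw [Finset.mem_powerset]
    intro p hp
    obtain ⟨h, _⟩ := (mem_im F p).1 hp
    simp [Xs, h]
  · intro F _ F' _ h
    exact Finset.map_injective _ h
  · intro S hS
    rw [Finset.mem_filter, Finset.mem_powerset] at hS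
    have e : im (S.subtype (fun i => G.lf i = true)) = S := by
      ext p
      rw [mem_im]
      constructor
      · rintro ⟨h, h2⟩
        simpa using h2
      · intro hp
        have h := hS.1 hp
        simp only [Xs, Finset.mem_filter, Finset.mem_univ, true_and] at h
        exact ⟨h, by simpa using hp⟩
    refine ⟨S.subtype (fun i => G.lf i = true), ?_, e⟩
    rw [Finset.mem_filter]
    refine ⟨Finset.mem_univ _, (ony_iff ho b _).2 ?_⟩
    rw [e]
    exact hS.2
  · intro F _
    rfl

end Pool.Agent.Helper85.AT
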