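import Pool.Agent.Helper85.AT.Term

/-!
# AT: all regions of even length
-/

set_option autoImplicit false

namespace Pool.Agent.Helper85.AT

open Polynomial Pool.Agent.Helper85.Exp Pool.Agent.Helper61.TW Pool.Agent.Helper60.EV2 Pool.Agent.Helper43.Pln Classical

variable {P : Type} {G : Sh P} {A : Finset P} {m : P → ℕ}

theorem aeval_neg_of_par {Q : ℝ[X]} (h : ∀ j k, Q.coeff j ≠ 0 → Q.coeff k ≠ 0 → j % 2 = k % 2) {z : ℂ} (hz : aeval z Q = 0) : aeval (-z) Q = 0 := by
  rw [aeval_eq_sum_range] at hz ⊢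
  by_cases hQ : ∃ j, Q.coeff j ≠ 0
  · obtain ⟨j, hj⟩ := hQ
    have key : ∀ k, Q.coeff k • (-z) ^ k = (-1) ^ j * (Q.coeff k • z ^ k) := by
      intro k
      by_cases hk : Q.coeff k = 0
      · rw [hk]
        simp
      · have h1 := h j k hj hk
        have h2 : (-1 : ℂ) ^ k = (-1) ^ j := by
          rw [neg_one_pow_eq_pow_mod_two, ← h1, ← neg_one_pow_eq_pow_mod_two]
        rw [neg_pow, h2, mul_smul_comm]
    rw [Finset.sum_congr rfl fun k _ => key k, ← Finset.mul_sum, hz, mul_zero]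
  · push Not at hQ
    exact Finset.sum_eq_zero fun k _ => by rw [hQ k, zero_smul]

theorem zeros_of [Fintype P] (hG : Plane G) {nab : Dg G → ℤ[X]} (hT : Twist G A m) (hm : ∀ a ∈ A, 2 ≤ m a) (hev : ∀ a ∈ A, Even (m a)) (b : P)
    (hlo : ∀ j, ∑ S ∈ ((Xs G).powersetCard j).filter (fun S => Sg G b S), ∏ x ∈ S, lo hT x ≤ ((nab (allPos G)).coeff j : ℝ))
    (hhi : ∀ j, ((nab (allPos G)).coeff j : ℝ) ≤ ∑ S ∈ ((Xs G).powersetCard j).filter (fun S => Sg G b S), ∏ x ∈ S, hi hT x)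
    {z : ℂ} (hz : aeval z (nab (allPos G)) = 0) : z.re = 0 := by
  have e0 : ∀ x, hi hT x = lo hT x := by
    intro x
    rw [hi_eq hT hm, rat, if_neg (Nat.not_odd_iff_even.2 (hev _ (reg_mem hT x))), mul_one]
  have e1 : (nab (allPos G)).map (Int.castRingHom ℝ) = gen G b (lo hT) := by
    ext j
    rw [coeff_map, gen_coeff]
    refine le_antisymm ?_ (hlo j)
    have h3 := hhi j
    simp only [e0] at h3
    exact h3
  have e2 : aeval z (gen G b (lo hT)) = 0 := by
    rw [← e1]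
    have : aeval z ((nab (allPos G)).map (Int.castRingHom ℝ)) = aeval z (nab (allPos G)) := by
      rw [aeval_def, aeval_def, eval₂_map]
      congr 1
    rw [this, hz]
  have h1 : ¬ 0 < z.re := fun h => gen_ne hG b (lo hT) (lo_pos hT hm) h e2
  have h2 : ¬ 0 < (-z).re := fun h => gen_ne hG b (lo hT) (lo_pos hT hm) h (aeval_neg_of_par (fun j k hj hk => gen_par hG b (lo hT) hj hk) e2)
  rw [Complex.neg_re] at h2
  linarith

end Pool.Agent.Helper85.AT
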