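import Pool.Agent.Helper85.AT.Even
import Pool.Agent.Helper61.TW.Count

/-!
# AT: the plain form
-/

set_option autoImplicit false

namespace Pool.Agent.Helper85.AT

open Polynomial Pool.Agent.Helper85.Exp Pool.Agent.Helper61.TW Pool.Agent.Helper60.EV2 Pool.Agent.Helper43.Pln Classical

variable {P : Type} {G : Sh P} {A : Finset P} {m : P → ℕ}

theorem two_all (hT : Twist G A m) (ho : ∀ i, G.op i ≠ i) (b : P) : Two G A m b :=
  fun _ ha _ _ hr hr' _ h h' => Pool.Agent.Helper41.TW.two hT ho ha hr hr' h h' b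

theorem exists_base (hG : Plane G) (hT : Twist G A m) : ∃ b, b ∈ A := by
  obtain ⟨p⟩ := nonempty_of hG
  obtain ⟨a, ha, _⟩ := hT.cov p
  exact ⟨a, ha⟩

variable [Fintype P]

theorem count_lo (hG : Plane G) {nab : Dg G → ℤ[X]} (hn : Cs nab) (hT : Twist G A m) {b : P} (hb : b ∈ A) (hm : ∀ a ∈ A, 2 ≤ m a) (j : ℕ) :
    ∑ S ∈ ((Xs G).powersetCard j).filter (fun S => Sg G b S), ∏ x ∈ S, lo hT x ≤ ((nab (allPos G)).coeff j : ℝ) := by
  refine (count hG.cross hT hb (hn.cw b) (allPos G) (fun _ => rfl) (w := lo hT) (fun x => (lo_pos hT hm x).le) j).1 ?_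
  intro a ha
  have h1 : ∀ r ∈ Finset.range (m a), lo hT (xr G a r) = ((m a / 2 : ℕ) : ℝ) / m a := by
    intro r hr
    unfold lo
    rw [reg_eq hT ha (Finset.mem_range.1 hr) (xr_or a r)]
  rw [Finset.sum_congr rfl h1, Finset.sum_const, Finset.card_range, nsmul_eq_mul]
  have h2 : (m a : ℝ) ≠ 0 := by
    have := hm a ha
    exact_mod_cast (by omega : m a ≠ 0)
  rw [mul_div_cancel₀ _ h2]

theorem count_hi (hG : Plane G) {nab : Dg G → ℤ[X]} (hn : Cs nab) (hT : Twist G A m) {b : P} (hb : b ∈ A) (hm : ∀ a ∈ A, 2 ≤ m a) (j : ℕ) :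
    ((nab (allPos G)).coeff j : ℝ) ≤ ∑ S ∈ ((Xs G).powersetCard j).filter (fun S => Sg G b S), ∏ x ∈ S, hi hT x := by
  refine (count hG.cross hT hb (hn.cw b) (allPos G) (fun _ => rfl) (w := hi hT) (fun x => ?_) j).2 ?_
  · unfold hi
    positivity
  intro a ha
  have h1 : ∀ r ∈ Finset.range (m a), hi hT (xr G a r) = (((m a + 1) / 2 : ℕ) : ℝ) / m a := by
    intro r hr
    unfold hi
    rw [reg_eq hT ha (Finset.mem_range.1 hr) (xr_or a r)]
  rw [Finset.sum_congr rfl h1, Finset.sum_const, Finset.card_range, nsmul_eq_mul]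
  have h2 : (m a : ℝ) ≠ 0 := by
    have := hm a ha
    exact_mod_cast (by omega : m a ≠ 0)
  rw [mul_div_cancel₀ _ h2]

/-- **The plain form, inequality.** -/
theorem plain_lc (hG : Plane G) {nab : Dg G → ℤ[X]} (hn : Cs nab) (hT : Twist G A m) (hm : ∀ a ∈ A, 2 ≤ m a)
    (hK : (((nab (allPos G)).natDegree : ℝ) - (nab (allPos G)).natTrailingDegree) *
      (∏ a ∈ A.filter (fun a => Odd (m a)), ((m a : ℝ) + 1) / ((m a : ℝ) - 1) - 1) ≤ 4) : LogConcave G nab := by
  obtain ⟨b, hb⟩ := exists_base hG hT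
  exact main_of hG hT hm b (two_all hT hG.cross b) (count_lo hG hn hT hb hm) (count_hi hG hn hT hb hm) hK

/-- **The plain form, zeros.** -/
theorem plain_zeros (hG : Plane G) {nab : Dg G → ℤ[X]} (hn : Cs nab) (hT : Twist G A m) (hev : ∀ a ∈ A, Even (m a)) {z : ℂ}
    (hz : aeval z (nab (allPos G)) = 0) : z.re = 0 := by
  have hm : ∀ a ∈ A, 2 ≤ m a := by
    intro a ha
    obtain ⟨k, hk⟩ := hev a ha
    have := hT.pos a ha
    omega
  obtain ⟨b, hb⟩ := exists_base hG hT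
  exact zeros_of hG hT hm hev b (count_lo hG hn hT hb hm) (count_hi hG hn hT hb hm) hz

end Pool.Agent.Helper85.AT
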