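import Pool.Agent.Helper2.AT.Walk
import Pool.Agent.Helper10.AT.Parity

/-!
# AT, leaf M: the generating function of the one circuit states is Hurwitz stable

PROOF. For `Re z > 0` let `x i = w i * z`, `p i = 1 / (1 + x i)`, `q i = x i / (1 + x i)` (so `p + q = 1`). For weights `p : ι → ℂ`, `q = 1 - p`, let `M p` be the matrix on `ι × Bool` with the row
`e_x - p_i e_(π x) - q_i e_(π (flip x))` at `x = (i, b)` (`flip x = (i, !b)`), plus `single b b 1` at a base point `b`.
(1) `det (M p)` is affine in each `p i`, so `det (M p) = ∑ F, (∏ i ∈ F, q i) (∏ i ∉ F, p i) det (M_F)`, `M_F = 1 - (permutation matrix of step π F) + single b b 1`.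
(2) `det M_F = 1` if `Ony π F`, else `0`.
(3) `det (M p) ≠ 0` for `Re (w z) > 0`: a kernel vector `v`: the columns of `1 - B` sum to zero, so `v b = 0` and `B v = v`; the blocks have the eigenvalues `1` (equal entries) and
`(1 - x) / (1 + x)`, of modulus `< 1` (opposite entries), so `∑ |v|² = ∑ |B v|²` forces `v (π x) = v (π (flip x)) = v x`; `Cn π` gives `v` constant `= v b = 0`.
-/

set_option autoImplicit false

namespace Pool.Agent.Helper85.AT

open Pool.Agent.Helper2.AT Finset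

theorem flip_sum {ι : Type*} [Fintype ι] {M : Type*} [AddCommMonoid M] (f : ι × Bool → M) :
    ∑ x : ι × Bool, f (x.1, !x.2) = ∑ x, f x :=
  Equiv.sum_comp (Function.Involutive.toPerm (fun x : ι × Bool => (x.1, !x.2)) (fun x => by simp)) f

/-- the kernel -/
theorem kernel {ι : Type*} [Fintype ι] [DecidableEq ι] {π : Equiv.Perm (ι × Bool)} (hc : Cn π) {p : ι → ℂ}
    (hp : ∀ i, ‖2 * p i - 1‖ < 1) {b : ι × Bool} {v : ι × Bool → ℂ} (hv : (Mm π b p).mulVec v = 0) : v = 0 := by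
  have row : ∀ x, v x - (p x.1 * v (π x) + (1 - p x.1) * v (π (x.1, !x.2))) + (if b = x then v b else 0) = 0 := by
    intro x
    have h := congrFun hv x
    have e : ((Mm π b p).mulVec v) x = v x - (p x.1 * v (π x) + (1 - p x.1) * v (π (x.1, !x.2))) + (if b = x then v b else 0) := by
      show ∑ y, Mm π b p x y * v y = _
      unfold Mm
      simp only [Matrix.of_apply, add_mul, sub_mul, sum_add_distrib, sum_sub_distrib, ite_mul, one_mul, zero_mul, mul_ite, mul_one, mul_zero,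
        sum_ite_eq, mem_univ, if_true]
      congr 1
      by_cases h1 : b = x
      · simp [h1]
      · simp [h1]
    rw [← e, h]
    rfl
  -- the base value vanishes
  have hb : v b = 0 := by
    have h1 : ∑ x, (v x - (p x.1 * v (π x) + (1 - p x.1) * v (π (x.1, !x.2))) + (if b = x then v b else 0)) = 0 :=
      sum_eq_zero fun x _ => row x
    rw [sum_add_distrib, sum_sub_distrib, sum_add_distrib] at h1
    have h2 : ∑ x : ι × Bool, (1 - p x.1) * v (π (x.1, !x.2)) = ∑ x : ι × Bool, (1 - p x.1) * v (π x) :=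
      flip_sum (fun x => (1 - p x.1) * v (π x))
    have h3 : ∑ x : ι × Bool, p x.1 * v (π x) + ∑ x : ι × Bool, (1 - p x.1) * v (π x) = ∑ x, v x := by
      rw [← sum_add_distrib, ← Equiv.sum_comp π v]
      refine sum_congr rfl fun x _ => ?_
      ring
    have h4 : ∑ x : ι × Bool, (if b = x then v b else 0) = v b := by simp
    rw [h2, h3, h4] at h1
    linear_combination h1
  have row' : ∀ x, v x = p x.1 * v (π x) + (1 - p x.1) * v (π (x.1, !x.2)) := by
    intro x
    have h := row x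
    have e : (if b = x then v b else 0) = (0 : ℂ) := by rw [hb, ite_self]
    rw [e, add_zero] at h
    exact sub_eq_zero.1 h
  -- the energy
  have en : ∀ x : ι × Bool, ‖v x‖ ^ 2 + ‖v (x.1, !x.2)‖ ^ 2 + 1 / 2 * (1 - ‖2 * p x.1 - 1‖ ^ 2) * ‖v (π x) - v (π (x.1, !x.2))‖ ^ 2 =
      ‖v (π x)‖ ^ 2 + ‖v (π (x.1, !x.2))‖ ^ 2 := by
    intro x
    have h1 := row' x
    have h2 := row' (x.1, !x.2)
    simp only [Bool.not_not, Prod.mk.eta] at h2
    have par : ∀ a c : ℂ, ‖a‖ ^ 2 + ‖c‖ ^ 2 = 1 / 2 * (‖a + c‖ ^ 2 + ‖a - c‖ ^ 2) := by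
      intro a c
      have := parallelogram_law_with_norm ℝ a c
      nlinarith
    have e1 : v x + v (x.1, !x.2) = v (π x) + v (π (x.1, !x.2)) := by
      rw [h1, h2]
      ring
    have e2 : v x - v (x.1, !x.2) = (2 * p x.1 - 1) * (v (π x) - v (π (x.1, !x.2))) := by
      rw [h1, h2]
      ring
    rw [par (v x), par (v (π x)), e1, e2, norm_mul]
    ring
  have tot : ∑ x : ι × Bool, 1 / 2 * (1 - ‖2 * p x.1 - 1‖ ^ 2) * ‖v (π x) - v (π (x.1, !x.2))‖ ^ 2 = 0 := by
    have h1 := sum_congr rfl fun (x : ι × Bool) (_ : x ∈ univ) => en x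
    rw [sum_add_distrib, sum_add_distrib, sum_add_distrib] at h1
    have h2 : ∑ x : ι × Bool, ‖v (x.1, !x.2)‖ ^ 2 = ∑ x, ‖v x‖ ^ 2 := flip_sum (fun x => ‖v x‖ ^ 2)
    have h3 : ∑ x : ι × Bool, ‖v (π (x.1, !x.2))‖ ^ 2 = ∑ x, ‖v (π x)‖ ^ 2 := flip_sum (fun x => ‖v (π x)‖ ^ 2)
    have h4 : ∑ x : ι × Bool, ‖v (π x)‖ ^ 2 = ∑ x, ‖v x‖ ^ 2 := Equiv.sum_comp π (fun x => ‖v x‖ ^ 2)
    rw [h2, h3, h4] at h1
    linarith
  have pos : ∀ i, 0 < 1 - ‖2 * p i - 1‖ ^ 2 := fun i => by
    have h1 := hp i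
    have h2 := norm_nonneg (2 * p i - 1)
    nlinarith
  have eq1 : ∀ x : ι × Bool, v (π x) = v (π (x.1, !x.2)) := by
    intro x
    have h1 := (sum_eq_zero_iff_of_nonneg (fun (x : ι × Bool) _ => mul_nonneg (mul_nonneg (by norm_num) (pos x.1).le) (sq_nonneg _))).1 tot x (mem_univ x)
    have h2 : ‖v (π x) - v (π (x.1, !x.2))‖ ^ 2 = 0 := by
      rcases mul_eq_zero.1 h1 with h3 | h3
      · exfalso
        have := pos x.1
        linarith
      · exact h3
    exact sub_eq_zero.1 (norm_eq_zero.1 (pow_eq_zero_iff two_ne_zero |>.1 h2))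
  have eq2 : ∀ x : ι × Bool, v x = v (π x) := by
    intro x
    rw [row' x, ← eq1 x]
    ring
  have eq3 : ∀ x : ι × Bool, v (x.1, !x.2) = v x := by
    intro x
    rw [eq2 x, eq2 (x.1, !x.2), eq1 x]
  have all := hc (fun x => v x = 0) ⟨b, hb⟩ (fun x => by rw [← eq2 x]) (fun x => by rw [eq3 x])
  funext x
  exact all x

open Classical in
/-- **Leaf M.** -/
theorem stable {ι : Type*} [Fintype ι] [DecidableEq ι] [Nonempty ι] {π : Equiv.Perm (ι × Bool)} (hc : Cn π) {w : ι → ℝ} (hw : ∀ i, 0 < w i) {z : ℂ} (hz : 0 < z.re) :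
    ∑ F ∈ Finset.univ.filter (fun F : Finset ι => Ony π F), ∏ i ∈ F, ((w i : ℂ) * z) ≠ 0 := by
  obtain ⟨i0⟩ := (inferInstance : Nonempty ι)
  have hre : ∀ i, 0 < ((w i : ℂ) * z).re := fun i => by
    rw [Complex.re_ofReal_mul]
    exact mul_pos (hw i) hz
  have hne : ∀ i, 1 + (w i : ℂ) * z ≠ 0 := fun i h => by
    have h1 := congrArg Complex.re h
    rw [Complex.add_re, Complex.one_re, Complex.zero_re] at h1
    linarith [hre i]
  obtain ⟨p, hp⟩ : ∃ p : ι → ℂ, p = fun i => (1 + (w i : ℂ) * z)⁻¹ := ⟨_, rfl⟩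
  have hp0 : ∀ i, p i ≠ 0 := fun i => by
    rw [hp]
    exact inv_ne_zero (hne i)
  have hp1 : ∀ i, 1 - p i = (w i : ℂ) * z * p i := fun i => by
    rw [hp]
    have := hne i
    field_simp
    ring
  have hp2 : ∀ i, ‖2 * p i - 1‖ < 1 := fun i => by
    have e : 2 * p i - 1 = (1 - (w i : ℂ) * z) / (1 + (w i : ℂ) * z) := by
      rw [hp]
      have := hne i
      field_simp
      ring
    rw [e, norm_div, div_lt_one (norm_pos_iff.2 (hne i)), ← sq_lt_sq₀ (norm_nonneg _) (norm_nonneg _),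
      ← Complex.normSq_eq_norm_sq, ← Complex.normSq_eq_norm_sq, Complex.normSq_apply, Complex.normSq_apply]
    simp only [Complex.sub_re, Complex.sub_im, Complex.add_re, Complex.add_im, Complex.one_re, Complex.one_im]
    nlinarith [hre i]
  have hdet : (Mm π (i0, false) p).det ≠ 0 := by
    intro h
    obtain ⟨v, hv0, hv⟩ := Matrix.exists_mulVec_eq_zero_iff.2 h
    exact hv0 (kernel hc hp2 hv)
  rw [Mm_det] at hdet
  intro h0
  apply hdet
  have e : ∀ F : Finset ι, (∏ i ∈ F, (1 - p i)) * (∏ i ∈ Fᶜ, p i) = (∏ i, p i) * ∏ i ∈ F, ((w i : ℂ) * z) := by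
    intro F
    rw [← prod_mul_prod_compl F p]
    simp only [hp1, prod_mul_distrib]
    ring
  simp only [e]
  rw [← mul_sum, h0, mul_zero]

/-- **Leaf M, parity.** (sign of `step π F` is `sign π * (-1) ^ F.card`, and `-1` for one circuit) -/
theorem parity {ι : Type*} [Fintype ι] [DecidableEq ι] {π : Equiv.Perm (ι × Bool)} {F F' : Finset ι} (h : Ony π F) (h' : Ony π F') :
    F.card % 2 = F'.card % 2 :=
  Pool.Agent.Helper10.AT.parity h h'

end Pool.Agent.Helper85.AT
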