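import Mathlib

/-!
# AT, leaf N: Newton's inequality for a Hurwitz stable polynomial with parity

PROOF. `A = X ^ p H(X ^ 2)`, `p = A.natTrailingDegree`; a complex root of `H` is `z ^ 2` with a root `z` of `A`, and `A (- z) = ± A z`, so `Re z = 0` and `z ^ 2` is a negative real number. So
`H = H(0) ∏ (1 + a_i X)`, `a_i > 0`, with at most `M` factors. Newton: `h_l = C(M, l) c_l`, `c_(l-1) c_(l+1) ≤ c_l ^ 2`, is preserved by the product with `1 + a X` (`M` to `M + 1 = n`):
`n ^ 2 (c'_l ^ 2 - c'_(l-1) c'_(l+1)) = ((n-l)^2 - 1) (c_l ^ 2 - c_(l-1) c_(l+1)) + (l-1) (n-l-1) a (c_l c_(l-1) - c_(l-2) c_(l+1)) + (l^2-1) a^2 (c_(l-1)^2 - c_(l-2) c_l) + (c_l - a c_(l-1))^2`.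
Then `C(M, l) ^ 2 / (C(M, l-1) C(M, l+1)) = (1 + 1/l) (1 + 1/(M-l)) ≥ (1 + 2/M) ^ 2`.
-/

set_option autoImplicit false

namespace Pool.Agent.Helper85.AT

open Polynomial

/-- the normalised coefficients of a product of `n` factors `1 + a X` -/
structure NS (n : ℕ) (c : ℕ → ℝ) : Prop where
  pos : ∀ l, l ≤ n → 0 < c l
  zero : ∀ l, n < l → c l = 0
  lc : ∀ l, c l * c (l + 2) ≤ c (l + 1) ^ 2

theorem NS.nn {n : ℕ} {c : ℕ → ℝ} (h : NS n c) (l : ℕ) : 0 ≤ c l := by
  rcases le_or_gt l n with h1 | h1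
  · exact (h.pos l h1).le
  · exact (h.zero l h1).ge

theorem NS.cross {n : ℕ} {c : ℕ → ℝ} (h : NS n c) (l : ℕ) : c l * c (l + 3) ≤ c (l + 1) * c (l + 2) := by
  rcases le_or_gt (l + 3) n with h1 | h1
  · have p0 := h.pos l (by omega)
    have p1 := h.pos (l + 1) (by omega)
    have p2 := h.pos (l + 2) (by omega)
    have p3 := h.pos (l + 3) h1
    have e1 := h.lc l
    have e2 := h.lc (l + 1)
    have e3 : (c l * c (l + 2)) * (c (l + 1) * c (l + 3)) ≤ c (l + 1) ^ 2 * c (l + 2) ^ 2 :=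
      mul_le_mul e1 e2 (by positivity) (by positivity)
    have p12 : 0 < c (l + 1) * c (l + 2) := mul_pos p1 p2
    by_contra hcon
    rw [not_le] at hcon
    have := mul_lt_mul_of_pos_right hcon p12
    nlinarith
  · rw [h.zero (l + 3) h1, mul_zero]
    exact mul_nonneg (h.nn _) (h.nn _)

/-- one more factor `1 + a X` -/
noncomputable def nxt (n : ℕ) (a : ℝ) (c : ℕ → ℝ) (l : ℕ) : ℝ :=
  (((n : ℝ) + 1 - l) * c l + a * l * c (l - 1)) / ((n : ℝ) + 1)

theorem NS.next {n : ℕ} {c : ℕ → ℝ} (h : NS n c) {a : ℝ} (ha : 0 < a) : NS (n + 1) (nxt n a c) := by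
  have hn : (0 : ℝ) < (n : ℝ) + 1 := by positivity
  have hz : ∀ l, n + 1 < l → nxt n a c l = 0 := by
    intro l hl
    unfold nxt
    rw [h.zero l (by omega), h.zero (l - 1) (by omega)]
    simp
  refine ⟨fun l hl => ?_, hz, fun l => ?_⟩
  · unfold nxt
    apply div_pos _ hn
    rcases Nat.eq_zero_or_pos l with h0 | h0
    · subst h0
      have := h.pos 0 (Nat.zero_le n)
      push_cast
      have : 0 < ((n : ℝ) + 1) * c 0 := mul_pos hn this
      linarith
    · have h1 : 0 < a * l * c (l - 1) := by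
        have := h.pos (l - 1) (by omega)
        have h2 : (0 : ℝ) < l := by exact_mod_cast h0
        positivity
      have h2 : 0 ≤ ((n : ℝ) + 1 - l) * c l := by
        apply mul_nonneg _ (h.nn l)
        have : (l : ℝ) ≤ (n : ℝ) + 1 := by exact_mod_cast hl
        linarith
      linarith
  · rcases le_or_gt (l + 2) (n + 1) with h1 | h1
    · have key : nxt n a c l * nxt n a c (l + 2) * ((n : ℝ) + 1) ^ 2 ≤
          nxt n a c (l + 1) ^ 2 * ((n : ℝ) + 1) ^ 2 := by
        have hx : (0 : ℝ) ≤ (n : ℝ) - l - 1 := by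
          have : ((l + 1 : ℕ) : ℝ) ≤ (n : ℝ) := by exact_mod_cast (by omega : l + 1 ≤ n)
          push_cast at this
          linarith
        have hl0 : (0 : ℝ) ≤ l := Nat.cast_nonneg l
        have e1 := h.lc l
        have u0 : nxt n a c (l + 1) ^ 2 * ((n : ℝ) + 1) ^ 2 =
            (((n : ℝ) - l) * c (l + 1) + a * (l + 1) * c l) ^ 2 := by
          unfold nxt
          rw [Nat.add_sub_cancel]
          push_cast
          field_simp
          ring
        rcases Nat.eq_zero_or_pos l with h0 | h0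
        · subst h0
          have u1 : nxt n a c 0 * nxt n a c (0 + 2) * ((n : ℝ) + 1) ^ 2 =
              (((n : ℝ) + 1) * c 0) * (((n : ℝ) - 1) * c 2 + a * 2 * c 1) := by
            unfold nxt
            push_cast
            field_simp
            ring
          rw [u0, u1]
          push_cast at hx ⊢
          have e2 : 0 ≤ (((n : ℝ)) ^ 2 - 1) * (c 1 ^ 2 - c 0 * c 2) := by
            apply mul_nonneg
            · nlinarith
            · linarith
          nlinarith [sq_nonneg (c 1 - a * c 0)]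
        · obtain ⟨k, rfl⟩ : ∃ k, l = k + 1 := ⟨l - 1, by omega⟩
          have u1 : nxt n a c (k + 1) * nxt n a c (k + 1 + 2) * ((n : ℝ) + 1) ^ 2 =
              (((n : ℝ) - k) * c (k + 1) + a * (k + 1) * c k) *
                (((n : ℝ) - k - 2) * c (k + 3) + a * (k + 3) * c (k + 2)) := by
            unfold nxt
            have w1 : (k + 1 - 1 : ℕ) = k := rfl
            have w2 : (k + 1 + 2 - 1 : ℕ) = k + 2 := rfl
            rw [w1, w2]
            push_cast
            field_simp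
            ring
          rw [u0, u1]
          push_cast at hx hl0 ⊢
          have hk0 : (0 : ℝ) ≤ k := Nat.cast_nonneg k
          have c1 := h.cross k
          have c2 := h.lc k
          have t1 : 0 ≤ (((n : ℝ) - k - 1) ^ 2 - 1) * (c (k + 2) ^ 2 - c (k + 1) * c (k + 3)) := by
            apply mul_nonneg
            · nlinarith
            · have e1' : c (k + 1) * c (k + 3) ≤ c (k + 2) ^ 2 := e1
              linarith
          have t2 : 0 ≤ ((k : ℝ) + 1) * ((n : ℝ) - k - 2) * a * (c (k + 2) * c (k + 1) - c k * c (k + 3)) := by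
            apply mul_nonneg
            · have : (0 : ℝ) ≤ (n : ℝ) - k - 2 := by linarith
              positivity
            · linarith
          have t3 : 0 ≤ (((k : ℝ) + 2) ^ 2 - 1) * a ^ 2 * (c (k + 1) ^ 2 - c k * c (k + 2)) := by
            apply mul_nonneg
            · apply mul_nonneg
              · nlinarith
              · positivity
            · linarith
          have t4 := sq_nonneg (c (k + 2) - a * c (k + 1))
          have w3 : c (k + 1 + 1) = c (k + 2) := rfl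
          rw [w3]
          nlinarith
      have h2 : (0 : ℝ) < ((n : ℝ) + 1) ^ 2 := by positivity
      exact le_of_mul_le_mul_right key h2
    · rw [hz (l + 2) (by omega), mul_zero]
      positivity

theorem choose_nxt {n : ℕ} {c : ℕ → ℝ} {a : ℝ} (l : ℕ) :
    ((n + 1).choose (l + 1) : ℝ) * nxt n a c (l + 1) = (n.choose (l + 1) : ℝ) * c (l + 1) +
      a * ((n.choose l : ℝ) * c l) ∧ ((n + 1).choose 0 : ℝ) * nxt n a c 0 = (n.choose 0 : ℝ) * c 0 := by
  have hn : (0 : ℝ) < (n : ℝ) + 1 := by positivity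
  constructor
  · have h1 : ((n : ℝ) + 1) * n.choose l = (n + 1).choose (l + 1) * ((l : ℝ) + 1) := by
      exact_mod_cast Nat.add_one_mul_choose_eq n l
    have h2 : (n.choose (l + 1) : ℝ) * ((n : ℝ) + 1) = (n + 1).choose (l + 1) * ((n : ℝ) - l) := by
      have h3 : ((n + 1).choose (l + 1) : ℝ) = n.choose l + n.choose (l + 1) := by
        exact_mod_cast Nat.choose_succ_succ n l
      have h4 : (n.choose (l + 1) : ℝ) * ((l : ℝ) + 1) = n.choose l * ((n : ℝ) - l) := by
        rcases le_or_gt l n with h | h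
        · have h5 := Nat.choose_succ_right_eq n l
          have h6 : ((n - l : ℕ) : ℝ) = (n : ℝ) - l := Nat.cast_sub h
          rw [← h6]
          exact_mod_cast h5
        · rw [Nat.choose_eq_zero_of_lt h, Nat.choose_eq_zero_of_lt (by omega)]
          simp
      rw [h3]
      nlinarith
    unfold nxt
    rw [Nat.add_sub_cancel, mul_div_assoc', div_eq_iff hn.ne']
    push_cast
    linear_combination (-c (l + 1)) * h2 - a * c l * h1
  · unfold nxt
    rw [Nat.choose_zero_right, Nat.choose_zero_right]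
    push_cast
    field_simp
    ring

theorem exists_ns : ∀ (n : ℕ) (H : ℝ[X]), H.natDegree = n → H.coeff 0 ≠ 0 →
    (∀ z : ℂ, aeval z H = 0 → z.im = 0 ∧ z.re < 0) →
    ∃ c : ℕ → ℝ, NS n c ∧ ∀ l, H.coeff l = H.coeff 0 * ((n.choose l : ℝ) * c l) := by
  intro n
  induction n with
  | zero =>
    intro H hd h0 hr
    refine ⟨fun l => if l = 0 then 1 else 0, ⟨fun l hl => ?_, fun l hl => ?_, fun l => ?_⟩, fun l => ?_⟩
    · rw [if_pos (by omega)]
      exact one_pos
    · rw [if_neg (by omega)]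
    · rw [if_neg (by omega : ¬ l + 2 = 0), mul_zero]
      positivity
    · rcases Nat.eq_zero_or_pos l with h | h
      · subst h
        simp
      · change H.coeff l = H.coeff 0 * (((Nat.choose 0 l : ℕ) : ℝ) * (if l = 0 then (1 : ℝ) else 0))
        rw [if_neg (by omega), H.coeff_eq_zero_of_natDegree_lt (by omega)]
        simp
  | succ n ih =>
    intro H hd h0 hr
    have hH : H ≠ 0 := fun h => h0 (by rw [h, coeff_zero])
    obtain ⟨z, hz⟩ : ∃ z : ℂ, aeval z H = 0 := by
      have h1 : (H.map (algebraMap ℝ ℂ)).degree ≠ 0 := by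
        rw [degree_map, degree_eq_natDegree hH, hd]
        exact_mod_cast Nat.succ_ne_zero n
      obtain ⟨z, hz⟩ := IsAlgClosed.exists_root _ h1
      refine ⟨z, ?_⟩
      rw [IsRoot.def, eval_map_algebraMap] at hz
      exact hz
    obtain ⟨him, hre⟩ := hr z hz
    obtain ⟨r, hrr⟩ : ∃ r : ℝ, r = - z.re := ⟨_, rfl⟩
    have hr0 : 0 < r := by rw [hrr]; linarith
    have hzr : z = ((-r : ℝ) : ℂ) := by
      apply Complex.ext
      · rw [Complex.ofReal_re, hrr]
        ring
      · rw [Complex.ofReal_im, him]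
    have hroot : H.IsRoot (-r) := by
      rw [IsRoot.def]
      have h1 : ((H.eval (-r) : ℝ) : ℂ) = 0 := by
        rw [hzr] at hz
        rw [← hz]
        exact (aeval_algebraMap_apply_eq_algebraMap_eval (A := ℂ) (-r) H).symm
      exact_mod_cast h1
    obtain ⟨Q, hQ⟩ := dvd_iff_isRoot.2 hroot
    have hQ0 : Q ≠ 0 := fun h => hH (by rw [hQ, h, mul_zero])
    have hXr : (X - C (-r) : ℝ[X]) = X + C r := by rw [C_neg, sub_neg_eq_add]
    rw [hXr] at hQ
    have hQd : Q.natDegree = n := by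
      have h1 : H.natDegree = 1 + Q.natDegree := by
        rw [hQ, natDegree_mul (X_add_C_ne_zero r) hQ0, natDegree_X_add_C]
      omega
    have hH0 : H.coeff 0 = r * Q.coeff 0 := by
      rw [hQ, mul_coeff_zero, coeff_add, coeff_X_zero, coeff_C_zero, zero_add]
    have hHl : ∀ l, H.coeff (l + 1) = r * Q.coeff (l + 1) + Q.coeff l := by
      intro l
      rw [hQ, add_mul, coeff_add, coeff_X_mul, coeff_C_mul]
      ring
    have hQ00 : Q.coeff 0 ≠ 0 := fun h => h0 (by rw [hH0, h, mul_zero])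
    obtain ⟨c, hc, hcl⟩ := ih Q hQd hQ00 (fun w hw => hr w (by rw [hQ, map_mul, hw, mul_zero]))
    refine ⟨nxt n (1 / r) c, hc.next (by positivity), fun l => ?_⟩
    rcases Nat.eq_zero_or_pos l with h | h
    · subst h
      have h1 := (choose_nxt (n := n) (c := c) (a := 1 / r) 0).2
      rw [h1]
      have h2 := hcl 0
      have h3 : ((n.choose 0 : ℕ) : ℝ) * c 0 = 1 := by
        have h4 : Q.coeff 0 * (((n.choose 0 : ℕ) : ℝ) * c 0) = Q.coeff 0 * 1 := by
          rw [mul_one]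
          exact h2.symm
        exact mul_left_cancel₀ hQ00 h4
      rw [h3, mul_one]
    · obtain ⟨k, rfl⟩ : ∃ k, l = k + 1 := ⟨l - 1, by omega⟩
      rw [(choose_nxt (n := n) (c := c) (a := 1 / r) k).1, hHl k, hcl (k + 1), hcl k, hH0]
      field_simp

theorem choose_newt {n i : ℕ} (hi : i + 2 ≤ n) :
    (1 + 2 / (n : ℝ)) ^ 2 * ((n.choose i : ℝ) * n.choose (i + 2)) ≤ (n.choose (i + 1) : ℝ) ^ 2 := by
  have hn : (0 : ℝ) < n := by
    have : 0 < n := by omega
    exact_mod_cast this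
  have h1 : (n.choose (i + 1) : ℝ) * ((i : ℝ) + 1) = n.choose i * ((n : ℝ) - i) := by
    have h5 := Nat.choose_succ_right_eq n i
    have h6 : ((n - i : ℕ) : ℝ) = (n : ℝ) - i := Nat.cast_sub (by omega)
    rw [← h6]
    exact_mod_cast h5
  have h2 : (n.choose (i + 2) : ℝ) * ((i : ℝ) + 2) = n.choose (i + 1) * ((n : ℝ) - i - 1) := by
    have h5 := Nat.choose_succ_right_eq n (i + 1)
    have h6 : ((n - (i + 1) : ℕ) : ℝ) = (n : ℝ) - i - 1 := by
      rw [Nat.cast_sub (by omega)]
      push_cast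
      ring
    rw [← h6]
    have h7 : ((i : ℝ) + 2) = ((i + 1 + 1 : ℕ) : ℝ) := by push_cast; ring
    rw [h7]
    exact_mod_cast h5
  obtain ⟨x, hx⟩ : ∃ x, x = (n.choose i : ℝ) := ⟨_, rfl⟩
  obtain ⟨y, hy⟩ : ∃ y, y = (n.choose (i + 1) : ℝ) := ⟨_, rfl⟩
  obtain ⟨w, hw⟩ : ∃ w, w = (n.choose (i + 2) : ℝ) := ⟨_, rfl⟩
  rw [← hx, ← hy] at h1
  rw [← hy, ← hw] at h2
  rw [← hx, ← hy, ← hw]
  have hi0 : (0 : ℝ) ≤ i := Nat.cast_nonneg i
  have hin : (i : ℝ) + 2 ≤ n := by exact_mod_cast hi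
  obtain ⟨u, hu⟩ : ∃ u : ℝ, u = (i : ℝ) + 1 := ⟨_, rfl⟩
  obtain ⟨v, hv⟩ : ∃ v : ℝ, v = (n : ℝ) - i - 1 := ⟨_, rfl⟩
  have hu0 : 0 < u := by linarith
  have hv0 : 0 < v := by linarith
  have e1 : y * u = x * (v + 1) := by
    rw [hu, hv, h1]
    ring
  have e2 : w * (u + 1) = y * v := by
    rw [hv, ← h2, hu]
    ring
  have e3 : (x * w) * ((v + 1) * (u + 1)) = y ^ 2 * (u * v) := by
    calc (x * w) * ((v + 1) * (u + 1)) = (x * (v + 1)) * (w * (u + 1)) := by ring
      _ = (y * u) * (y * v) := by rw [e1, e2]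
      _ = _ := by ring
  have e4 : (n : ℝ) = u + v := by rw [hu, hv]; ring
  have e5 : x * w = y ^ 2 * (u * v) / ((v + 1) * (u + 1)) := by
    rw [eq_div_iff (by positivity)]
    exact e3
  rw [e5, e4]
  have e6 : (1 + 2 / (u + v)) ^ 2 * (u * v) ≤ (v + 1) * (u + 1) := by
    have e7 : (1 + 2 / (u + v)) ^ 2 = (u + v + 2) ^ 2 / (u + v) ^ 2 := by
      rw [← div_pow]
      congr 1
      field_simp
    rw [e7, div_mul_eq_mul_div, div_le_iff₀ (by positivity)]
    nlinarith [sq_nonneg (u - v), mul_nonneg (by linarith : (0 : ℝ) ≤ u + v + 1) (sq_nonneg (u - v))]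
  rw [mul_div_assoc', div_le_iff₀ (by positivity)]
  calc (1 + 2 / (u + v)) ^ 2 * (y ^ 2 * (u * v)) = y ^ 2 * ((1 + 2 / (u + v)) ^ 2 * (u * v)) := by ring
    _ ≤ y ^ 2 * ((v + 1) * (u + 1)) := mul_le_mul_of_nonneg_left e6 (by positivity)

/-- **Leaf N.** -/
theorem newton {M : ℕ} {A : ℝ[X]} (hA : ∀ k, 0 ≤ A.coeff k) (hst : ∀ z : ℂ, 0 < z.re → aeval z A ≠ 0)
    (hpar : ∀ j k, A.coeff j ≠ 0 → A.coeff k ≠ 0 → j % 2 = k % 2) (hM : A.natDegree ≤ A.natTrailingDegree + 2 * M) (j : ℕ) :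
    (1 + 2 / (M : ℝ)) ^ 2 * (A.coeff j * A.coeff (j + 4)) ≤ A.coeff (j + 2) ^ 2 := by
  have hA0 : A ≠ 0 := by
    intro h
    exact hst 1 (by norm_num) (by rw [h, map_zero])
  obtain ⟨p, hp⟩ : ∃ p, p = A.natTrailingDegree := ⟨_, rfl⟩
  have hp0 : A.coeff p ≠ 0 := by
    rw [hp]
    exact mt trailingCoeff_eq_zero.1 hA0
  obtain ⟨H, hH⟩ : ∃ H : ℝ[X], H = ∑ i ∈ Finset.range (M + 1), C (A.coeff (p + 2 * i)) * X ^ i := ⟨_, rfl⟩
  have hc : ∀ i, H.coeff i = A.coeff (p + 2 * i) := by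
    intro i
    rw [hH, finsetSum_coeff]
    simp only [coeff_C_mul, coeff_X_pow, mul_ite, mul_one, mul_zero]
    rw [Finset.sum_ite_eq]
    split_ifs with h
    · rfl
    · rw [Finset.mem_range] at h
      rw [A.coeff_eq_zero_of_natDegree_lt (by omega)]
  have hAH : A = X ^ p * expand ℝ 2 H := by
    ext k
    rw [coeff_X_pow_mul', coeff_expand (by norm_num)]
    split_ifs with h1 h2
    · obtain ⟨i, hi⟩ := h2
      rw [hi, Nat.mul_div_cancel_left _ (by norm_num), hc]
      congr 1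
      omega
    · by_contra hk
      have := hpar p k hp0 hk
      omega
    · exact coeff_eq_zero_of_lt_natTrailingDegree (by omega)
  have hroots : ∀ z : ℂ, aeval z H = 0 → z.im = 0 ∧ z.re < 0 := by
    intro z hz
    obtain ⟨y, hy⟩ := IsAlgClosed.exists_pow_nat_eq z (n := 2) (by norm_num)
    have h1 : ∀ t : ℂ, t ^ 2 = z → aeval t A = 0 := by
      intro t ht
      rw [hAH, map_mul, expand_aeval, ht, hz, mul_zero]
    have h2 : ¬ 0 < y.re := fun h => hst y h (h1 y hy)
    have h3 : ¬ 0 < (-y).re := fun h => hst (-y) h (h1 (-y) (by rw [neg_sq, hy]))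
    have h4 : y.re = 0 := by
      rw [Complex.neg_re] at h3
      linarith
    have h5 : z.re = - y.im ^ 2 := by
      rw [← hy, sq, Complex.mul_re, h4]
      ring
    have h6 : z.im = 0 := by
      rw [← hy, sq, Complex.mul_im, h4]
      ring
    refine ⟨h6, lt_of_le_of_ne (by rw [h5]; nlinarith [sq_nonneg y.im]) fun h7 => ?_⟩
    have h8 : z = 0 := Complex.ext h7 h6
    rw [h8, ← coeff_zero_eq_aeval_zero'] at hz
    have h9 : H.coeff 0 = 0 := by
      have : ((H.coeff 0 : ℝ) : ℂ) = 0 := hz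
      exact_mod_cast this
    rw [hc, mul_zero, add_zero] at h9
    exact hp0 h9
  have hH0 : H.coeff 0 ≠ 0 := by
    rw [hc, mul_zero, add_zero]
    exact hp0
  by_cases hj : A.coeff j = 0
  · rw [hj, zero_mul, mul_zero]
    positivity
  have hjp := hpar p j hp0 hj
  have hpj : p ≤ j := by
    rw [hp]
    exact natTrailingDegree_le_of_ne_zero hj
  obtain ⟨i, hi⟩ : ∃ i, j = p + 2 * i := ⟨(j - p) / 2, by omega⟩
  have e0 : A.coeff j = H.coeff i := by rw [hc, hi]
  have e2 : A.coeff (j + 2) = H.coeff (i + 1) := by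
    rw [hc, hi]
    congr 1
  have e4 : A.coeff (j + 4) = H.coeff (i + 2) := by
    rw [hc, hi]
    congr 1
  rw [e0, e2, e4]
  obtain ⟨n, hn⟩ : ∃ n, n = H.natDegree := ⟨_, rfl⟩
  rcases le_or_gt (i + 2) n with h1 | h1
  · obtain ⟨c, hcs, hcl⟩ := exists_ns n H hn.symm hH0 hroots
    have hnM : n ≤ M := by
      by_contra hcon
      have h2 : H.coeff n = 0 := by
        rw [hc, A.coeff_eq_zero_of_natDegree_lt (by omega)]
      have h3 : H.leadingCoeff = 0 := by
        unfold Polynomial.leadingCoeff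
        rw [← hn]
        exact h2
      have h4 : H = 0 := leadingCoeff_eq_zero.1 h3
      exact hH0 (by rw [h4, coeff_zero])
    have hn0 : (0 : ℝ) < n := by
      have : 0 < n := by omega
      exact_mod_cast this
    have hMn : (1 + 2 / (M : ℝ)) ^ 2 ≤ (1 + 2 / (n : ℝ)) ^ 2 := by
      have h2 : 2 / (M : ℝ) ≤ 2 / (n : ℝ) := by
        apply div_le_div_of_nonneg_left (by norm_num) hn0
        exact_mod_cast hnM
      have h3 : 0 ≤ 2 / (M : ℝ) := by positivity
      gcongr
    have h2 := choose_newt h1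
    have h3 := hcs.lc i
    rw [hcl i, hcl (i + 1), hcl (i + 2)]
    have p0 := hcs.nn i
    have p2 := hcs.nn (i + 2)
    calc (1 + 2 / (M : ℝ)) ^ 2 * (H.coeff 0 * ((n.choose i : ℝ) * c i) * (H.coeff 0 * ((n.choose (i + 2) : ℝ) * c (i + 2))))
        = H.coeff 0 ^ 2 * (((1 + 2 / (M : ℝ)) ^ 2 * ((n.choose i : ℝ) * n.choose (i + 2))) * (c i * c (i + 2))) := by ring
      _ ≤ H.coeff 0 ^ 2 * ((n.choose (i + 1) : ℝ) ^ 2 * c (i + 1) ^ 2) := by
        apply mul_le_mul_of_nonneg_left _ (sq_nonneg _)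
        apply mul_le_mul _ h3 (mul_nonneg p0 p2) (by positivity)
        refine le_trans (mul_le_mul_of_nonneg_right hMn (by positivity)) h2
      _ = _ := by ring
  · rw [H.coeff_eq_zero_of_natDegree_lt (by omega : H.natDegree < i + 2), mul_zero, mul_zero]
    positivity

end Pool.Agent.Helper85.AT
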