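import Pool.Agent.Helper85.AT.Bridge
import Pool.Agent.Helper85.AT.Mat
import Pool.Agent.Helper85.AT.Newt

/-!
# AT: from the counts to the inequality of Q1
-/

set_option autoImplicit false

namespace Pool.Agent.Helper85.AT

open Polynomial Pool.Agent.Helper85.Exp Pool.Agent.Helper61.TW Pool.Agent.Helper60.EV2 Pool.Agent.Helper43.Pln Classical

variable {P : Type} [Fintype P] {G : Sh P}

/-- the generating polynomial of the one circuit states -/
noncomputable def gen (G : Sh P) (b : P) (w : P → ℝ) : ℝ[X] :=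
  ∑ S ∈ (Xs G).powerset.filter (fun S => Sg G b S), C (∏ x ∈ S, w x) * X ^ S.card

theorem gen_coeff (b : P) (w : P → ℝ) (j : ℕ) :
    (gen G b w).coeff j = ∑ S ∈ ((Xs G).powersetCard j).filter (fun S => Sg G b S), ∏ x ∈ S, w x := by
  unfold gen
  rw [Polynomial.finset_sum_coeff]
  simp only [coeff_C_mul, coeff_X_pow, mul_ite, mul_one, mul_zero]
  rw [← Finset.sum_filter]
  refine Finset.sum_congr ?_ fun _ _ => rfl
  ext S
  simp only [Finset.mem_filter, Finset.mem_powerset, Finset.mem_powersetCard]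
  constructor
  · rintro ⟨⟨h1, h2⟩, h3⟩
    exact ⟨⟨h1, h3.symm⟩, h2⟩
  · rintro ⟨⟨h1, h3⟩, h2⟩
    exact ⟨⟨h1, h2⟩, h3.symm⟩

theorem prod_im (F : Finset (Cx G)) (f : P → ℂ) : ∏ x ∈ im F, f x = ∏ i ∈ F, f i.1 := by
  unfold im
  rw [Finset.prod_map]
  rfl

theorem card_im (F : Finset (Cx G)) : (im F).card = F.card := Finset.card_map _

theorem gen_ne (hG : Plane G) (b : P) (w : P → ℝ) (hw : ∀ x, 0 < w x) {z : ℂ} (hz : 0 < z.re) : aeval z (gen G b w) ≠ 0 := by
  have ho := hG.cross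
  have e1 : aeval z (gen G b w) = ∑ S ∈ (Xs G).powerset.filter (fun S => Sg G b S), ∏ x ∈ S, ((w x : ℂ) * z) := by
    unfold gen
    rw [map_sum]
    refine Finset.sum_congr rfl fun S _ => ?_
    rw [map_mul, aeval_C, map_pow, aeval_X, Finset.prod_mul_distrib, Finset.prod_const]
    simp
  rw [e1, ← sum_im ho b]
  have e2 : (fun F : Finset (Cx G) => ∏ x ∈ im F, ((w x : ℂ) * z)) = fun F : Finset (Cx G) => ∏ i ∈ F, ((w i.1 : ℂ) * z) := by
    funext F
    exact prod_im F _
  rw [e2]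
  have : Nonempty (Cx G) := by
    by_cases h : G.lf b = true
    · exact ⟨⟨b, h⟩⟩
    · exact ⟨⟨G.op b, lf_op_false ho h⟩⟩
  exact stable (cn_pn ho hG.conn) (w := fun i : Cx G => w i.1) (fun i => hw i.1) hz

theorem gen_par (hG : Plane G) (b : P) (w : P → ℝ) {j k : ℕ} (hj : (gen G b w).coeff j ≠ 0) (hk : (gen G b w).coeff k ≠ 0) : j % 2 = k % 2 := by
  have ho := hG.cross
  rw [gen_coeff] at hj hk
  obtain ⟨S, hS, _⟩ := Finset.exists_ne_zero_of_sum_ne_zero hj
  obtain ⟨T, hT, _⟩ := Finset.exists_ne_zero_of_sum_ne_zero hk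
  rw [Finset.mem_filter, Finset.mem_powersetCard] at hS hT
  have key : ∀ S : Finset P, S ⊆ Xs G → im (S.subtype (fun i => G.lf i = true)) = S := by
    intro S hS
    ext p
    rw [mem_im]
    constructor
    · rintro ⟨h, h2⟩
      simpa using h2
    · intro hp
      have h := hS hp
      simp only [Xs, Finset.mem_filter, Finset.mem_univ, true_and] at h
      exact ⟨h, by simpa using hp⟩
  have h1 := (ony_iff ho b (S.subtype (fun i => G.lf i = true))).2 (by rw [key S hS.1.1]; exact hS.2)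
  have h2 := (ony_iff ho b (T.subtype (fun i => G.lf i = true))).2 (by rw [key T hT.1.1]; exact hT.2)
  have h3 := parity h1 h2
  rw [← card_im, ← card_im, key S hS.1.1, key T hT.1.1, hS.1.2, hT.1.2] at h3
  exact h3

theorem gen_nonneg (b : P) (w : P → ℝ) (hw : ∀ x, 0 < w x) (j : ℕ) : 0 ≤ (gen G b w).coeff j := by
  rw [gen_coeff]
  exact Finset.sum_nonneg fun S _ => Finset.prod_nonneg fun x _ => (hw x).le

/-- **From the counts to the inequality.** -/
theorem lc_of (hG : Plane G) (b : P) (w : P → ℝ) (hw : ∀ x, 0 < w x) (N : ℤ[X]) {K : ℝ}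
    (h1 : ∀ j, (gen G b w).coeff j ≤ (N.coeff j : ℝ)) (h2 : ∀ j, (N.coeff j : ℝ) ≤ K * (gen G b w).coeff j)
    (hK : ((N.natDegree : ℝ) - N.natTrailingDegree) * (K - 1) ≤ 4) (i : ℕ) : N.coeff i * N.coeff (i + 4) ≤ N.coeff (i + 2) ^ 2 := by
  by_cases hi : N.coeff i = 0
  · rw [hi, zero_mul]
    exact sq_nonneg _
  by_cases hi4 : N.coeff (i + 4) = 0
  · rw [hi4, mul_zero]
    exact sq_nonneg _
  have hA := gen_nonneg (G := G) b w hw
  set A := gen G b w with hAdef
  have hz : ∀ j, A.coeff j = 0 ↔ N.coeff j = 0 := by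
    intro j
    constructor
    · intro h
      have h3 := h1 j
      have h4 := h2 j
      rw [h, mul_zero] at h4
      rw [h] at h3
      have : (N.coeff j : ℝ) = 0 := le_antisymm h4 h3
      exact_mod_cast this
    · intro h
      have h3 := h1 j
      rw [h, Int.cast_zero] at h3
      exact le_antisymm h3 (hA j)
  have hd : A.natDegree ≤ N.natDegree := by
    rw [natDegree_le_iff_coeff_eq_zero]
    intro j hj
    exact (hz j).2 (coeff_eq_zero_of_natDegree_lt hj)
  have hA0 : A ≠ 0 := by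
    intro h
    apply hi
    rw [← hz, h, coeff_zero]
  have ht : N.natTrailingDegree ≤ A.natTrailingDegree := by
    apply natTrailingDegree_le_of_ne_zero
    intro h
    rw [← hz] at h
    exact hA0 (trailingCoeff_eq_zero.1 h)
  have hN0 : N ≠ 0 := fun h => hi (by rw [h, coeff_zero])
  have hpar : N.natDegree % 2 = N.natTrailingDegree % 2 := by
    apply gen_par hG b w
    · rw [← hAdef]
      intro h
      rw [hz] at h
      exact hN0 (leadingCoeff_eq_zero.1 h)
    · rw [← hAdef]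
      intro h
      rw [hz] at h
      exact hN0 (trailingCoeff_eq_zero.1 h)
  have hdo : N.natTrailingDegree ≤ N.natDegree := natTrailingDegree_le_natDegree N
  have hi1 : N.natTrailingDegree ≤ i := natTrailingDegree_le_of_ne_zero hi
  have hi2 : i + 4 ≤ N.natDegree := le_natDegree_of_ne_zero hi4
  obtain ⟨M, hM⟩ : ∃ M, N.natDegree = N.natTrailingDegree + 2 * M := ⟨(N.natDegree - N.natTrailingDegree) / 2, by omega⟩
  have hMpos : 2 ≤ M := by omega
  have hMr : (0 : ℝ) < M := by exact_mod_cast (by omega : 0 < M)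
  have hnew := newton (M := M) hA (fun z hz => gen_ne hG b w hw hz) (fun j k hj hk => gen_par hG b w hj hk) (by omega) i
  have hK2 : K ≤ 1 + 2 / (M : ℝ) := by
    rw [hM] at hK
    push_cast at hK
    have h5 : 2 * (M : ℝ) * (K - 1) ≤ 4 := by linarith
    have h6 : K - 1 ≤ 2 / (M : ℝ) := by
      rw [le_div_iff₀ hMr]
      linarith
    linarith
  have hpos : 0 < A.coeff i := lt_of_le_of_ne (hA i) (fun h => hi ((hz i).1 h.symm))
  have hK0 : 0 < K := by
    by_contra h
    have h7 := h2 i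
    have h8 := h1 i
    nlinarith
  have hc0 : ∀ j, 0 ≤ (N.coeff j : ℝ) := fun j => (hA j).trans (h1 j)
  have h9 : (N.coeff i : ℝ) * N.coeff (i + 4) ≤ (K * A.coeff i) * (K * A.coeff (i + 4)) :=
    mul_le_mul (h2 i) (h2 (i + 4)) (hc0 _) (mul_nonneg hK0.le (hA i))
  have h10 : (K * A.coeff i) * (K * A.coeff (i + 4)) ≤ (1 + 2 / (M : ℝ)) ^ 2 * (A.coeff i * A.coeff (i + 4)) := by
    have h11 : K ^ 2 ≤ (1 + 2 / (M : ℝ)) ^ 2 := pow_le_pow_left₀ hK0.le hK2 2
    have h12 := mul_le_mul_of_nonneg_right h11 (mul_nonneg (hA i) (hA (i + 4)))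
    nlinarith
  have h13 : A.coeff (i + 2) ^ 2 ≤ (N.coeff (i + 2) : ℝ) ^ 2 := pow_le_pow_left₀ (hA _) (h1 _) 2
  have h14 : (N.coeff i : ℝ) * N.coeff (i + 4) ≤ (N.coeff (i + 2) : ℝ) ^ 2 := by linarith
  exact_mod_cast h14

end Pool.Agent.Helper85.AT
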