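import Pool.Agent.Helper85.AT.Local

/-!
# AT: the local criterion in numbers
-/

set_option autoImplicit false

namespace Pool.Agent.Helper85.AT.L

open Polynomial Pool.Agent.Helper85.Exp Pool.Agent.Helper60.EV2 Pool.Agent.Helper43.Pln Pool.Agent.Helper61.TW Pool.Agent.Helper43.V6

theorem cot_le (n : ℕ) : Real.cot (Real.pi / n) ≤ n / Real.pi := by
  have hpi := Real.pi_pos
  have h0 : (0 : ℝ) ≤ n / Real.pi := by positivity
  rcases Nat.lt_or_ge n 3 with h | h
  · have : n = 0 ∨ n = 1 ∨ n = 2 := by omega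
    rw [Real.cot_eq_cos_div_sin]
    rcases this with rfl | rfl | rfl
    · simp
    · simp
      positivity
    · simp
      positivity
  · have hn : (0 : ℝ) < n := by exact_mod_cast (by omega : 0 < n)
    have hx0 : 0 < Real.pi / n := div_pos hpi hn
    have hx1 : Real.pi / n < Real.pi / 2 := by
      apply div_lt_div_of_pos_left hpi (by norm_num)
      exact_mod_cast (by omega : 2 < n)
    have h1 := Real.lt_tan hx0 hx1
    rw [Real.cot_eq_cos_div_sin, ← inv_div, ← Real.tan_eq_sin_div_cos]
    have h2 : (n : ℝ) / Real.pi = (Real.pi / n)⁻¹ := by rw [inv_div]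
    rw [h2]
    exact inv_anti₀ hx0 h1.le

variable {P : Type} [Fintype P] {G : Sh P} {A : Finset P} {m : P → ℕ}

/-- **The local criterion**, few crossings on the end circles. -/
theorem local_total (hG : Plane G) {nab : Dg G → ℤ[X]} (hn : Cs nab) (hT : Twist G A m)
    (h : ∀ a ∈ A, total G (G.op a) + total G (G.nxt^[m a - 1] a) ≤ 16 * m a) :
    (∀ z : ℂ, aeval z (nab (allPos G)) = 0 → 3 * z.re ^ 2 ≤ z.im ^ 2) ∧ LogConcave G nab := by
  refine local_of hG hn hT zero_le_one le_rfl fun a ha => ?_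
  have hpi : (3.14 : ℝ) < Real.pi := Real.pi_gt_d2
  have hpi0 := Real.pi_pos
  have key : ∀ p, weight 1 G p ≤ total G p / (2 * Real.pi) := by
    intro p
    unfold weight
    have h1 := cot_le (total G p)
    have e : (total G p : ℝ) / (2 * Real.pi) = total G p / Real.pi / 2 := by rw [div_div, mul_comm]
    rw [e]
    linarith
  have h1 := key (G.op a)
  have h2 := key (G.nxt^[m a - 1] a)
  have h3 : ((total G (G.op a) : ℝ) + total G (G.nxt^[m a - 1] a)) ≤ 16 * m a := by exact_mod_cast h a ha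
  have h4 : (total G (G.op a) : ℝ) / (2 * Real.pi) + total G (G.nxt^[m a - 1] a) / (2 * Real.pi) ≤ 16 * m a / (2 * Real.pi) := by
    rw [← add_div]
    exact div_le_div_of_nonneg_right h3 (by positivity)
  have h5 : 16 * (m a : ℝ) / (2 * Real.pi) ≤ m a * 2.6 := by
    rw [div_le_iff₀ (by positivity)]
    have : (0 : ℝ) ≤ m a := Nat.cast_nonneg _
    nlinarith
  have h6 : (1.7 : ℝ) ≤ √3 := by
    rw [Real.le_sqrt' (by norm_num)]
    norm_num
  have h7 : (m a : ℝ) * 2.6 ≤ m a * (√3 + 9 / 10 * 1) := mul_le_mul_of_nonneg_left (by linarith) (Nat.cast_nonneg _)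
  linarith

/-- **The local criterion**, few crossings on one side of the end circles. -/
theorem local_sides (hG : Plane G) {nab : Dg G → ℤ[X]} (hn : Cs nab) (hT : Twist G A m)
    (h : ∀ a ∈ A, side G true (G.op a) * side G false (G.op a) ≤ 12 * m a ^ 2 ∧
      side G true (G.nxt^[m a - 1] a) * side G false (G.nxt^[m a - 1] a) ≤ 12 * m a ^ 2) :
    (∀ z : ℂ, aeval z (nab (allPos G)) = 0 → 3 * z.re ^ 2 ≤ z.im ^ 2) ∧ LogConcave G nab := by
  refine local_of hG hn hT le_rfl zero_le_one fun a ha => ?_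
  have key : ∀ p, side G true p * side G false p ≤ 12 * m a ^ 2 → weight 0 G p ≤ √3 / 2 * m a := by
    intro p hp
    unfold weight
    have h1 : ((side G true p : ℝ) * side G false p) ≤ 12 * (m a : ℝ) ^ 2 := by exact_mod_cast hp
    have h2 : √((side G true p : ℝ) * side G false p) ≤ 2 * √3 * m a := by
      rw [Real.sqrt_le_left (by positivity)]
      have : (2 * √3 * (m a : ℝ)) ^ 2 = 12 * (m a : ℝ) ^ 2 := by
        rw [mul_pow, mul_pow, Real.sq_sqrt (by norm_num)]
        ring
      rw [this]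
      exact h1
    linarith
  obtain ⟨h1, h2⟩ := h a ha
  have k1 := key _ h1
  have k2 := key _ h2
  linarith

end Pool.Agent.Helper85.AT.L
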