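import Pool.Agent.Helper85.AT.Even

/-!
# AT: the symmetric form of the count, quadratic loss
-/

set_option autoImplicit false

namespace Pool.Agent.Helper85.AT

open Polynomial Pool.Agent.Helper85.Exp Pool.Agent.Helper61.TW Pool.Agent.Helper60.EV2 Pool.Agent.Helper43.Pln Classical

/-- half of the sum of the two products -/
noncomputable def EE {ι : Type*} (S : Finset ι) (y : ι → ℝ) : ℝ := (∏ i ∈ S, (1 + y i) + ∏ i ∈ S, (1 - y i)) / 2

/-- half of the difference of the two products -/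
noncomputable def OO {ι : Type*} (S : Finset ι) (y : ι → ℝ) : ℝ := (∏ i ∈ S, (1 + y i) - ∏ i ∈ S, (1 - y i)) / 2

theorem EE_insert {ι : Type*} {S : Finset ι} {a : ι} (ha : a ∉ S) (y : ι → ℝ) : EE (insert a S) y = EE S y + y a * OO S y := by
  unfold EE OO
  rw [Finset.prod_insert ha, Finset.prod_insert ha]
  ring

theorem OO_insert {ι : Type*} {S : Finset ι} {a : ι} (ha : a ∉ S) (y : ι → ℝ) : OO (insert a S) y = OO S y + y a * EE S y := by
  unfold EE OO
  rw [Finset.prod_insert ha, Finset.prod_insert ha]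
  ring

theorem quad {ι : Type*} {S : Finset ι} {x y : ι → ℝ} (h : ∀ i ∈ S, |y i| ≤ x i) : |EE S y - 1| ≤ EE S x - 1 ∧ |OO S y| ≤ OO S x := by
  induction S using Finset.induction_on with
  | empty => simp [EE, OO]
  | insert a S ha ih =>
    obtain ⟨h1, h2⟩ := ih fun i hi => h i (Finset.mem_insert_of_mem hi)
    have h3 := h a (Finset.mem_insert_self a S)
    have h4 : 0 ≤ |y a| := abs_nonneg _
    have h5 : 0 ≤ |OO S y| := abs_nonneg _
    have h6 : |EE S y| ≤ EE S x := by
      have := abs_sub_abs_le_abs_sub (EE S y) 1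
      rw [abs_one] at this
      linarith
    rw [EE_insert ha, EE_insert ha, OO_insert ha, OO_insert ha]
    constructor
    · calc |EE S y + y a * OO S y - 1| = |(EE S y - 1) + y a * OO S y| := by ring_nf
        _ ≤ |EE S y - 1| + |y a * OO S y| := abs_add_le _ _
        _ ≤ (EE S x - 1) + x a * OO S x := by
          rw [abs_mul]
          have := mul_le_mul h3 h2 h5 (h4.trans h3)
          linarith
        _ = EE S x + x a * OO S x - 1 := by ring
    · calc |OO S y + y a * EE S y| ≤ |OO S y| + |y a * EE S y| := abs_add_le _ _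
        _ ≤ OO S x + x a * EE S x := by
          rw [abs_mul]
          have := mul_le_mul h3 h6 (abs_nonneg _) (h4.trans h3)
          linarith

/-- products over a subset -/
theorem EE_indic {ι : Type*} {S T : Finset ι} (h : S ⊆ T) (y : ι → ℝ) : EE S y = EE T (fun i => if i ∈ S then y i else 0) := by
  unfold EE
  have key : ∀ f : ι → ℝ, (∀ i, i ∉ S → f i = 1) → ∏ i ∈ T, f i = ∏ i ∈ S, f i := by
    intro f hf
    exact (Finset.prod_subset h fun i _ hi => hf i hi).symm
  rw [key (fun i => 1 + if i ∈ S then y i else 0) (fun i hi => by simp [hi]), key (fun i => 1 - if i ∈ S then y i else 0) (fun i hi => by simp [hi])]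
  congr 1
  congr 1
  · exact Finset.prod_congr rfl fun i hi => by simp [hi]
  · exact Finset.prod_congr rfl fun i hi => by simp [hi]

theorem EE_mono {ι : Type*} {S T : Finset ι} (h : S ⊆ T) {x : ι → ℝ} (hx : ∀ i ∈ T, 0 ≤ x i) : EE S x ≤ EE T x := by
  rw [EE_indic h]
  have h1 := (quad (S := T) (x := x) (y := fun i => if i ∈ S then x i else 0) (fun i hi => by
    by_cases h2 : i ∈ S
    · simp only [h2, if_true]
      rw [abs_of_nonneg (hx i hi)]
    · simp only [h2, if_false, abs_zero]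
      exact hx i hi)).1
  have := le_abs_self (EE T (fun i => if i ∈ S then x i else 0) - 1)
  linarith

variable {P : Type} {G : Sh P} {A : Finset P} {m : P → ℕ}

/-- the relative defect of a region -/
noncomputable def xi (m : P → ℕ) (a : P) : ℝ := if Odd (m a) then 1 / (m a : ℝ) else 0

theorem xi_nonneg (m : P → ℕ) (a : P) : 0 ≤ xi m a := by
  unfold xi
  split_ifs <;> positivity

/-- the sum of the two products over the regions of odd length -/
noncomputable def VV (A : Finset P) (m : P → ℕ) : ℝ :=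
  ∏ a ∈ A.filter (fun a => Odd (m a)), (1 + 1 / (m a : ℝ)) + ∏ a ∈ A.filter (fun a => Odd (m a)), (1 - 1 / (m a : ℝ))

theorem VV_eq (A : Finset P) (m : P → ℕ) : VV A m = 2 * EE A (xi m) := by
  unfold VV EE xi
  rw [Finset.prod_filter, Finset.prod_filter, mul_div_cancel₀ _ (two_ne_zero)]
  congr 1
  · exact Finset.prod_congr rfl fun a _ => by split_ifs <;> simp
  · exact Finset.prod_congr rfl fun a _ => by split_ifs <;> simp

theorem EE_reg (hT : Twist G A m) (ho : ∀ i, G.op i ≠ i) {b : P} (htwo : Two G A m b) {S : Finset P} (hS : ∀ x ∈ S, G.lf x = true)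
    (hg : Sg G b S) : EE S (fun x => xi m (reg hT x)) ≤ EE A (xi m) := by
  have hinj := reg_injOn hT ho htwo hS hg
  have e : EE S (fun x => xi m (reg hT x)) = EE (S.image (reg hT)) (xi m) := by
    unfold EE
    rw [Finset.prod_image hinj, Finset.prod_image hinj]
  rw [e]
  refine EE_mono ?_ fun a _ => xi_nonneg m a
  intro a ha
  rw [Finset.mem_image] at ha
  obtain ⟨x, _, rfl⟩ := ha
  exact reg_mem hT x

variable [Fintype P]

/-- the two forms of the count -/
structure Cnt (hT : Twist G A m) (b : P) (N : ℤ[X]) (v : Finset P → P → ℝ) : Prop where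
  bd : ∀ S : Finset P, Sg G b S → ∀ x ∈ S, |2 * v S x - 1| ≤ xi m (reg hT x)
  c1 : ∀ j, (N.coeff j : ℝ) = ∑ S ∈ ((Xs G).powersetCard j).filter (fun S => Sg G b S), ∏ x ∈ S, v S x
  c2 : ∀ j, (N.coeff j : ℝ) = ∑ S ∈ ((Xs G).powersetCard j).filter (fun S => Sg G b S), ∏ x ∈ S, (1 - v S x)

theorem Cnt.eq {hT : Twist G A m} {b : P} {N : ℤ[X]} {v : Finset P → P → ℝ} (h : Cnt hT b N v) (j : ℕ) :
    (N.coeff j : ℝ) = ∑ S ∈ ((Xs G).powersetCard j).filter (fun S => Sg G b S), EE S (fun x => 2 * v S x - 1) * ∏ _x ∈ S, (1 / 2 : ℝ) := by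
  have e : (N.coeff j : ℝ) = ((N.coeff j : ℝ) + (N.coeff j : ℝ)) / 2 := by ring
  rw [e]
  nth_rw 1 [h.c1 j]
  nth_rw 1 [h.c2 j]
  rw [← Finset.sum_add_distrib, Finset.sum_div]
  refine Finset.sum_congr rfl fun S _ => ?_
  unfold EE
  rw [div_mul_eq_mul_div, add_mul, ← Finset.prod_mul_distrib, ← Finset.prod_mul_distrib]
  congr 1
  congr 1
  · exact Finset.prod_congr rfl fun x _ => by ring
  · exact Finset.prod_congr rfl fun x _ => by ring

theorem Cnt.bound {hT : Twist G A m} {b : P} {N : ℤ[X]} {v : Finset P → P → ℝ} (h : Cnt hT b N v) (ho : ∀ i, G.op i ≠ i) (htwo : Two G A m b) (j : ℕ) :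
    |(N.coeff j : ℝ) - (gen G b (fun _ => 1 / 2)).coeff j| ≤ (EE A (xi m) - 1) * (gen G b (fun _ => 1 / 2)).coeff j := by
  rw [h.eq j, gen_coeff, ← Finset.sum_sub_distrib, Finset.mul_sum]
  refine (Finset.abs_sum_le_sum_abs _ _).trans (Finset.sum_le_sum fun S hS => ?_)
  rw [Finset.mem_filter, Finset.mem_powersetCard] at hS
  have hS2 : ∀ x ∈ S, G.lf x = true := fun x hx => by
    have := hS.1.1 hx
    simpa [Xs] using this
  have h0 : (0 : ℝ) ≤ ∏ _x ∈ S, (1 / 2 : ℝ) := Finset.prod_nonneg fun _ _ => by norm_num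
  have e1 : EE S (fun x => 2 * v S x - 1) * ∏ _x ∈ S, (1 / 2 : ℝ) - ∏ _x ∈ S, (1 / 2 : ℝ) = (EE S (fun x => 2 * v S x - 1) - 1) * ∏ _x ∈ S, (1 / 2 : ℝ) := by ring
  rw [e1, abs_mul, abs_of_nonneg h0]
  refine mul_le_mul_of_nonneg_right ?_ h0
  have h1 := (quad (S := S) (x := fun x => xi m (reg hT x)) (y := fun x => 2 * v S x - 1) (fun x hx => h.bd S hS.2 x hx)).1
  have h2 := EE_reg hT ho htwo hS2 hS.2
  linarith

/-- **From the symmetric count to the inequality.** -/
theorem lc_quad (hG : Plane G) {hT : Twist G A m} {b : P} (N : ℤ[X]) {v : Finset P → P → ℝ} (h : Cnt hT b N v) (htwo : Two G A m b)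
    (hV : ((N.natDegree : ℝ) - N.natTrailingDegree + 2) * (VV A m - 2) ≤ 4) (i : ℕ) : N.coeff i * N.coeff (i + 4) ≤ N.coeff (i + 2) ^ 2 := by
  by_cases hi : N.coeff i = 0
  · rw [hi, zero_mul]
    exact sq_nonneg _
  by_cases hi4 : N.coeff (i + 4) = 0
  · rw [hi4, mul_zero]
    exact sq_nonneg _
  have hw : ∀ x : P, (0 : ℝ) < (fun _ => 1 / 2 : P → ℝ) x := fun _ => by norm_num
  have hA := gen_nonneg (G := G) b (fun _ => 1 / 2) hw
  have hbd := h.bound hG.cross htwo
  rw [VV_eq] at hV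
  have hU0 : 1 ≤ EE A (xi m) := by
    have := (quad (S := A) (x := xi m) (y := fun _ => 0) (fun a _ => by rw [abs_zero]; exact xi_nonneg m a)).1
    have h2 := abs_nonneg (EE A (fun _ => (0 : ℝ)) - 1)
    linarith
  set U := EE A (xi m) with hUdef
  set B := gen G b (fun _ => 1 / 2) with hBdef
  have hi1 : N.natTrailingDegree ≤ i := natTrailingDegree_le_of_ne_zero hi
  have hi2 : i + 4 ≤ N.natDegree := le_natDegree_of_ne_zero hi4
  have hdeg : (4 : ℝ) ≤ (N.natDegree : ℝ) - N.natTrailingDegree := by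
    have h1 : (N.natTrailingDegree : ℝ) ≤ i := by exact_mod_cast hi1
    have h2 : (i : ℝ) + 4 ≤ N.natDegree := by exact_mod_cast hi2
    linarith
  have hU1 : U ≤ 4 / 3 := by nlinarith
  have h1 : ∀ j, (2 - U) * B.coeff j ≤ (N.coeff j : ℝ) := fun j => by
    have := (abs_le.1 (hbd j)).1
    linarith
  have h2 : ∀ j, (N.coeff j : ℝ) ≤ U * B.coeff j := fun j => by
    have := (abs_le.1 (hbd j)).2
    linarith
  have hz : ∀ j, B.coeff j = 0 ↔ N.coeff j = 0 := by
    intro j
    constructor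
    · intro h
      have h3 := h1 j
      have h4 := h2 j
      rw [h, mul_zero] at h4
      rw [h, mul_zero] at h3
      have : (N.coeff j : ℝ) = 0 := le_antisymm h4 h3
      exact_mod_cast this
    · intro h
      have h3 := h1 j
      rw [h, Int.cast_zero] at h3
      have h4 := hA j
      nlinarith
  have hd : B.natDegree ≤ N.natDegree := by
    rw [natDegree_le_iff_coeff_eq_zero]
    intro j hj
    exact (hz j).2 (coeff_eq_zero_of_natDegree_lt hj)
  have hA0 : B ≠ 0 := by
    intro h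
    apply hi
    rw [← hz, h, coeff_zero]
  have ht : N.natTrailingDegree ≤ B.natTrailingDegree := by
    apply natTrailingDegree_le_of_ne_zero
    intro h
    rw [← hz] at h
    exact hA0 (trailingCoeff_eq_zero.1 h)
  have hN0 : N ≠ 0 := fun h => hi (by rw [h, coeff_zero])
  have hpar : N.natDegree % 2 = N.natTrailingDegree % 2 := by
    apply gen_par hG b (fun _ => 1 / 2)
    · rw [← hBdef]
      intro h
      rw [hz] at h
      exact hN0 (leadingCoeff_eq_zero.1 h)
    · rw [← hBdef]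
      intro h
      rw [hz] at h
      exact hN0 (trailingCoeff_eq_zero.1 h)
  have hdo : N.natTrailingDegree ≤ N.natDegree := natTrailingDegree_le_natDegree N
  obtain ⟨M, hM⟩ : ∃ M, N.natDegree = N.natTrailingDegree + 2 * M := ⟨(N.natDegree - N.natTrailingDegree) / 2, by omega⟩
  have hMpos : 2 ≤ M := by omega
  have hMr : (0 : ℝ) < M := by exact_mod_cast (by omega : 0 < M)
  have hnew := newton (M := M) hA (fun z hz => gen_ne hG b (fun _ => 1 / 2) hw hz) (fun j k hj hk => gen_par hG b (fun _ => 1 / 2) hj hk) (by omega) i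
  have hK2 : U ≤ (1 + 2 / (M : ℝ)) * (2 - U) := by
    rw [hM] at hV
    push_cast at hV
    have h5 : ((M : ℝ) + 1) * (U - 1) ≤ 1 := by linarith
    have h6 : (1 + 2 / (M : ℝ)) * (2 - U) - U = 2 * (1 - ((M : ℝ) + 1) * (U - 1)) / M := by
      field_simp
      ring
    have h7 : 0 ≤ 2 * (1 - ((M : ℝ) + 1) * (U - 1)) / M := div_nonneg (by linarith) hMr.le
    linarith
  have hc0 : ∀ j, 0 ≤ (N.coeff j : ℝ) := fun j => (mul_nonneg (by linarith) (hA j)).trans (h1 j)
  have h9 : (N.coeff i : ℝ) * N.coeff (i + 4) ≤ (U * B.coeff i) * (U * B.coeff (i + 4)) :=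
    mul_le_mul (h2 i) (h2 (i + 4)) (hc0 _) (mul_nonneg (by linarith) (hA i))
  have h10 : (U * B.coeff i) * (U * B.coeff (i + 4)) ≤ (2 - U) ^ 2 * ((1 + 2 / (M : ℝ)) ^ 2 * (B.coeff i * B.coeff (i + 4))) := by
    have h11 : U ^ 2 ≤ ((1 + 2 / (M : ℝ)) * (2 - U)) ^ 2 := pow_le_pow_left₀ (by linarith) hK2 2
    have h12 := mul_le_mul_of_nonneg_right h11 (mul_nonneg (hA i) (hA (i + 4)))
    nlinarith
  have h11 : (2 - U) ^ 2 * ((1 + 2 / (M : ℝ)) ^ 2 * (B.coeff i * B.coeff (i + 4))) ≤ (2 - U) ^ 2 * B.coeff (i + 2) ^ 2 :=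
    mul_le_mul_of_nonneg_left hnew (sq_nonneg _)
  have h13 : ((2 - U) * B.coeff (i + 2)) ^ 2 ≤ (N.coeff (i + 2) : ℝ) ^ 2 := pow_le_pow_left₀ (mul_nonneg (by linarith) (hA _)) (h1 _) 2
  rw [mul_pow] at h13
  have h14 : (N.coeff i : ℝ) * N.coeff (i + 4) ≤ (N.coeff (i + 2) : ℝ) ^ 2 := by linarith
  exact_mod_cast h14

/-- **At most one region of odd length.** -/
theorem zeros_one (hG : Plane G) {hT : Twist G A m} {b : P} (N : ℤ[X]) {v : Finset P → P → ℝ} (h : Cnt hT b N v) (htwo : Two G A m b)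
    (hone : (A.filter (fun a => Odd (m a))).card ≤ 1) {z : ℂ} (hz : aeval z N = 0) : z.re = 0 := by
  have hw : ∀ x : P, (0 : ℝ) < (fun _ => 1 / 2 : P → ℝ) x := fun _ => by norm_num
  have hU : EE A (xi m) = 1 := by
    have h1 := VV_eq A m
    have h2 : VV A m = 2 := by
      unfold VV
      rcases Nat.le_one_iff_eq_zero_or_eq_one.1 hone with h0 | h0
      · rw [Finset.card_eq_zero] at h0
        rw [h0]
        norm_num
      · obtain ⟨a, ha⟩ := Finset.card_eq_one.1 h0
        rw [ha]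
        simp only [Finset.prod_singleton]
        ring
    linarith
  have hbd := h.bound hG.cross htwo
  rw [hU] at hbd
  have e1 : N.map (Int.castRingHom ℝ) = gen G b (fun _ => 1 / 2) := by
    ext j
    rw [coeff_map]
    have h3 := hbd j
    rw [sub_self, zero_mul] at h3
    have h4 := abs_eq_zero.1 (le_antisymm h3 (abs_nonneg _))
    exact sub_eq_zero.1 h4
  have e2 : aeval z (gen G b (fun _ => 1 / 2)) = 0 := by
    rw [← e1]
    have : aeval z (N.map (Int.castRingHom ℝ)) = aeval z N := by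
      rw [aeval_def, aeval_def, eval₂_map]
      congr 1
    rw [this, hz]
  have h1 : ¬ 0 < z.re := fun h => gen_ne hG b (fun _ => 1 / 2) hw h e2
  have h2 : ¬ 0 < (-z).re := fun h => gen_ne hG b (fun _ => 1 / 2) hw h (aeval_neg_of_par (fun j k hj hk => gen_par hG b (fun _ => 1 / 2) hj hk) e2)
  rw [Complex.neg_re] at h2
  linarith

end Pool.Agent.Helper85.AT
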